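import Pool.Agent.TH18.HS.Move

/-! Commutators of loops. -/

set_option autoImplicit false

namespace Pool.Agent.TH18.HS

open Pool.Agent.TH18.MS (ht ht_mul ht_one ht_inv ht_pow)

namespace KDat

variable {α β G : Type} [Group G] (D : KDat α β G) [Finite β] [Finite α]

/-- **Commutators of loops are null-homotopic.** -/
theorem caseA (RT : Finset (FreeGroup α)) (h0 : ∀ z ∈ RT, ht D.η z = 0)
    (hz : ∀ z ∈ RT, ∀ w, D.φ (D.b w) * D.φ z = D.φ z * D.φ (D.b w))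
    (hT : ∀ A : ℝ, ∃ d, ∀ w, D.φ w = 1 → Pa D.η A w → w ∈ E D.η (RT : Set (FreeGroup α)) d)
    (A : ℝ) : ∃ c, ∀ γ γ', D.φ γ = 1 → D.φ γ' = 1 → Pa D.η A γ → Pa D.η A γ' →
      γ * γ' * γ⁻¹ * γ'⁻¹ ∈ D.EE c := by
  obtain ⟨e, c, he0, hc0, hred⟩ := D.reduce A
  obtain ⟨C, hC0, hC⟩ := D.exists_C
  obtain ⟨d', hd'⟩ := hT (e + C)
  obtain ⟨c2, c3, hc2, hc3, hmove⟩ := D.move
  obtain ⟨cz, hcz0, hcz⟩ := fin_bound RT
    (fun z d => ∀ e w, Pa D.ζ e w → D.b w * z * (D.b w)⁻¹ * z⁻¹ ∈ D.EE (e + d))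
    (fun z d d' h h' e w hw => E_mem (by linarith) (h' e w hw))
    (fun z hz' => by
      obtain ⟨d, _, hd⟩ := D.slide z (MonoidHom.id _) (hz z hz')
      exact ⟨d, hd⟩)
  -- constants
  let d : ℝ := max 0 d'
  have hd0 : 0 ≤ d := le_max_left _ _
  have hdd : d' ≤ d := le_max_right _ _
  let e1 : ℝ := max e (d + c2)
  have he1 : e ≤ e1 := le_max_left _ _
  have he2 : d + c2 ≤ e1 := le_max_right _ _
  let c4 : ℝ := e1 + c3 + cz
  have hc4 : c4 = e1 + c3 + cz := rfl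
  -- commutators with the relators of `T`
  have key : ∀ δ, Pa D.ζ e1 δ → D.φ (D.b δ) = 1 → ∀ y ∈ E D.η (RT : Set (FreeGroup α)) d,
      Pa D.η d y ∧ ht D.η y = 0 ∧ D.b δ * y * (D.b δ)⁻¹ * y⁻¹ ∈ D.EE c4 := by
    intro δ hδ hδ1 y hy
    unfold E at hy
    induction hy using Subgroup.closure_induction with
    | mem y hy =>
      obtain ⟨u, z, hz1, hu, hz2, rfl⟩ := hy
      have hz0 := h0 z hz1
      have hy0 : ht D.η (u * z * u⁻¹) = 0 := by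
        rw [ht_mul, ht_mul, ht_inv, hz0]; ring
      have hyP : Pa D.η d (u * z * u⁻¹) := by
        refine (hu.mul hz2).mul' hu.inv ?_
        rw [ht_mul, hz0]; linarith
      refine ⟨hyP, hy0, ?_⟩
      obtain ⟨δ', h1, h2, h3⟩ := hmove d e1 δ u hu hδ1 hδ he2
      have h4 := hcz z hz1 _ _ h2
      have e1' : D.b δ * (u * z * u⁻¹) * (D.b δ)⁻¹ * (u * z * u⁻¹)⁻¹ =
          (D.b δ * (u * D.b δ' * u⁻¹)⁻¹) *
          (u * (D.b δ' * z * (D.b δ')⁻¹ * z⁻¹) * u⁻¹) *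
          ((u * z * u⁻¹) * (D.b δ * (u * D.b δ' * u⁻¹)⁻¹)⁻¹ * (u * z * u⁻¹)⁻¹) := by
        group
      rw [e1']
      refine mul_mem (mul_mem (E_mem (by linarith) h3) ?_) ?_
      · exact E_conj' (hu.mono (by linarith)) h4 (by linarith)
      · refine E_conj' (hyP.mono (by linarith)) (inv_mem h3) ?_
        rw [hy0]; linarith
    | one =>
      refine ⟨Pa.one hd0, ht_one _, ?_⟩
      have : D.b δ * 1 * (D.b δ)⁻¹ * 1⁻¹ = 1 := by group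
      rw [this]; exact one_mem _
    | mul x y _ _ hx hy =>
      refine ⟨hx.1.mul' hy.1 (by rw [hx.2.1]; linarith), by rw [ht_mul, hx.2.1, hy.2.1]; ring, ?_⟩
      have e1' : D.b δ * (x * y) * (D.b δ)⁻¹ * (x * y)⁻¹ =
          (D.b δ * x * (D.b δ)⁻¹ * x⁻¹) * (x * (D.b δ * y * (D.b δ)⁻¹ * y⁻¹) * x⁻¹) := by
        group
      rw [e1']
      refine mul_mem hx.2.2 (E_conj' (hx.1.mono (by linarith)) hy.2.2 ?_)
      rw [hx.2.1]; linarith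
    | inv x _ hx =>
      have hxi : Pa D.η d x⁻¹ := hx.1.inv' (by rw [hx.2.1]; linarith)
      refine ⟨hxi, by rw [ht_inv, hx.2.1]; ring, ?_⟩
      have e1' : D.b δ * x⁻¹ * (D.b δ)⁻¹ * (x⁻¹)⁻¹ =
          x⁻¹ * (D.b δ * x * (D.b δ)⁻¹ * x⁻¹)⁻¹ * (x⁻¹)⁻¹ := by
        group
      rw [e1']
      refine E_conj' (hxi.mono (by linarith)) (inv_mem hx.2.2) ?_
      rw [ht_inv, hx.2.1]; linarith
  refine ⟨max c4 (e + c + C), fun γ γ' hγ hγ' hP hP' => ?_⟩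
  obtain ⟨δ, h1, h2, h3⟩ := hred γ hP hγ
  obtain ⟨δ', h1', h2', h3'⟩ := hred γ' hP' hγ'
  have h4 : D.b δ' ∈ E D.η (RT : Set (FreeGroup α)) d :=
    E_mem hdd (hd' _ h2' (hC _ _ h1'))
  obtain ⟨_, _, h5⟩ := key δ (h1.mono he1) h2 _ h4
  have hδ0 : ht D.η (D.b δ) = 0 := by rw [D.hη, h2, ht_one]
  have hδ0' : ht D.η (D.b δ') = 0 := by rw [D.hη, h2', ht_one]
  have hm1 : c4 ≤ max c4 (e + c + C) := le_max_left _ _
  have hm2 : e + c + C ≤ max c4 (e + c + C) := le_max_right _ _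
  have e1' : γ * γ' * γ⁻¹ * γ'⁻¹ = (γ * (D.b δ)⁻¹) *
      (D.b δ * (γ' * (D.b δ')⁻¹) * (D.b δ)⁻¹) *
      (D.b δ * D.b δ' * (D.b δ)⁻¹ * (D.b δ')⁻¹) *
      (D.b δ' * (γ * (D.b δ)⁻¹)⁻¹ * (D.b δ')⁻¹) * (γ' * (D.b δ')⁻¹)⁻¹ := by
    group
  rw [e1']
  refine mul_mem (mul_mem (mul_mem (mul_mem (E_mem (by linarith) h3) ?_) (E_mem hm1 h5)) ?_)
    (inv_mem (E_mem (by linarith) h3'))
  · exact E_conj' ((hC _ _ h1).mono (by linarith)) h3' (by rw [hδ0]; linarith)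
  · exact E_conj' ((hC _ _ h1').mono (by linarith)) (inv_mem h3) (by rw [hδ0']; linarith)

end KDat

end Pool.Agent.TH18.HS
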