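import Pool.Agent.TH18.HS.Comm

/-! From type `FP_2` over the monoid ring to loops up to commutators. -/

set_option autoImplicit false

namespace Pool.Agent.TH18.HS

open Pool.Agent.TH18.NN
open Pool.Agent.TH18.MS

section lift
variable {M : Type} [Monoid M]

/-- additive maps from monoid rings -/
noncomputable def liftM {A : Type} [AddCommGroup A] (f : M → A) : ZM M →+ A :=
  (Finsupp.liftAddHom (fun p => (zmultiplesHom A) (f p))).comp
    MonoidAlgebra.coeffAddEquiv.toAddMonoidHom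

theorem liftM_of {A : Type} [AddCommGroup A] (f : M → A) (p : M) :
    liftM f (MonoidAlgebra.of ℤ M p) = f p := by
  show Finsupp.liftAddHom _ (MonoidAlgebra.single p 1 : MonoidAlgebra ℤ M).coeff = _
  rw [MonoidAlgebra.coeff_single, Finsupp.liftAddHom_apply_single]
  show (1 : ℤ) • f p = f p
  rw [one_zsmul]

/-- additive induction on vectors over the monoid ring -/
theorem vec_indM {m : ℕ} {A : Type} [AddCommGroup A] (f g : (Fin m → ZM M) →+ A)
    (h : ∀ j q, f (Pi.single j (MonoidAlgebra.of ℤ M q)) = g (Pi.single j (MonoidAlgebra.of ℤ M q)))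
    (v : Fin m → ZM M) : f v = g v := by
  classical
  have h1 : ∀ (j : Fin m) (a : ZM M), f (Pi.single j a) = g (Pi.single j a) := by
    intro j a
    induction a using MonoidAlgebra.induction_on with
    | of q => exact h j q
    | add a b ha hb =>
      rw [Pi.single_add, map_add, map_add, ha, hb]
    | smul r a ha =>
      have e : (Pi.single j (r • a) : Fin m → ZM M) = r • Pi.single j a := by
        rw [Pi.single_smul']
      rw [e, map_zsmul, map_zsmul, ha]
  rw [← Finset.univ_sum_single v, map_sum, map_sum]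
  exact Finset.sum_congr rfl fun j _ => h1 j (v j)

/-- predicate induction on vectors over the monoid ring -/
theorem vec_pred {m : ℕ} (Q : (Fin m → ZM M) → Prop)
    (h : ∀ j q, Q (Pi.single j (MonoidAlgebra.of ℤ M q))) (h0 : Q 0)
    (hadd : ∀ v w, Q v → Q w → Q (v + w)) (hneg : ∀ v, Q v → Q (-v)) (v : Fin m → ZM M) : Q v := by
  classical
  have hz : ∀ (r : ℤ) (w : Fin m → ZM M), Q w → Q (r • w) := by
    intro r w hw
    have hn : ∀ n : ℕ, Q ((n : ℤ) • w) := by
      intro n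
      induction n with
      | zero => simpa using h0
      | succ n ih =>
        push_cast
        rw [add_smul, one_smul]
        exact hadd _ _ ih hw
    rcases Int.eq_nat_or_neg r with ⟨n, rfl | rfl⟩
    · exact hn n
    · rw [neg_smul]; exact hneg _ (hn n)
  have h1 : ∀ (j : Fin m) (a : ZM M), Q (Pi.single j a) := by
    intro j a
    induction a using MonoidAlgebra.induction_on with
    | of q => exact h j q
    | add a b ha hb =>
      rw [Pi.single_add]; exact hadd _ _ ha hb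
    | smul r a ha =>
      have e : (Pi.single j (r • a) : Fin m → ZM M) = r • Pi.single j a := by
        rw [Pi.single_smul']
      rw [e]; exact hz r _ ha
  rw [← Finset.univ_sum_single v]
  have h2 : ∀ s : Finset (Fin m), Q (∑ i ∈ s, Pi.single i (v i)) := by
    intro s
    induction s using Finset.induction_on with
    | empty => simpa using h0
    | insert a s ha ih => rw [Finset.sum_insert ha]; exact hadd _ _ (h1 _ _) ih
  exact h2 _

/-- the first boundary map -/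
noncomputable def bd {a : ℕ} (y : Fin a → M) : (Fin a → ZM M) →ₗ[ZM M] ZM M :=
  Fintype.linearCombination (ZM M) (fun j => MonoidAlgebra.of ℤ M (y j) - 1)

theorem bd_single {a : ℕ} (y : Fin a → M) (j : Fin a) (c : ZM M) :
    bd y (Pi.single j c) = c * (MonoidAlgebra.of ℤ M (y j) - 1) := by
  unfold bd
  rw [Fintype.linearCombination_apply_single, smul_eq_mul]

theorem bd_single_of {a : ℕ} (y : Fin a → M) (j : Fin a) (g : M) :
    bd y (Pi.single j (MonoidAlgebra.of ℤ M g)) =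
      MonoidAlgebra.of ℤ M (g * y j) - MonoidAlgebra.of ℤ M g := by
  rw [bd_single, mul_sub, mul_one, ← map_mul]

theorem bd_range {a : ℕ} (y : Fin a → M) : LinearMap.range (bd y) = LI (Set.range y) := by
  unfold bd LI
  rw [Fintype.range_linearCombination]
  congr 1
  ext x
  constructor
  · rintro ⟨j, rfl⟩
    exact ⟨y j, ⟨j, rfl⟩, rfl⟩
  · rintro ⟨_, ⟨j, rfl⟩, rfl⟩
    exact ⟨j, rfl⟩

/-- the kernel of the first boundary map is finitely generated -/
theorem bd_ker_fg {a : ℕ} (y : Fin a → M) (h2 : FPm (ZM M) 2 (TrM M))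
    (hy : ∀ g : M, MonoidAlgebra.of ℤ M g - 1 ∈ LI (Set.range y)) :
    ∃ Z : Finset (Fin a → ZM M), Submodule.span (ZM M) (Z : Set (Fin a → ZM M)) =
      LinearMap.ker (bd y) := by
  have h1 : FPm (ZM M) 1 (LinearMap.ker (augML M)) := by
    refine FPm.ker (augML M) (augML_surj M) ?_ h2
    exact (FPm.free 1 1).equiv (LinearEquiv.funUnique (Fin 1) (ZM M) (ZM M))
  have hr : LinearMap.range (bd y) = LinearMap.ker (augML M) := by
    rw [bd_range, ker_augML]
    apply le_antisymm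
    · exact LI_mono (Set.subset_univ _)
    · refine Submodule.span_le.2 ?_
      rintro _ ⟨g, _, rfl⟩
      exact hy g
  let f : (Fin a → ZM M) →ₗ[ZM M] LinearMap.ker (augML M) :=
    (bd y).codRestrict _ (fun v => by rw [← hr]; exact ⟨v, rfl⟩)
  have hf : Function.Surjective f := by
    rintro ⟨x, hx⟩
    rw [← hr] at hx
    obtain ⟨v, hv⟩ := hx
    exact ⟨v, Subtype.ext hv⟩
  have h3 : FPm (ZM M) 0 (LinearMap.ker f) := FPm.ker f hf (FPm.free 0 a) h1
  have h4 : (LinearMap.ker f).FG := Module.Finite.iff_fg.1 h3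
  rw [LinearMap.ker_codRestrict] at h4
  obtain ⟨Z, hZ⟩ := h4
  exact ⟨Z, hZ⟩

end lift

section conn
variable {G α : Type} [Group G] (χ : G →* Multiplicative ℝ) (φ : FreeGroup α →* G)

/-- **Connectivity.** -/
theorem conn {a : ℕ} (y : Fin a → Mo χ) (hy : ∀ g : Mo χ, MonoidAlgebra.of ℤ (Mo χ) g - 1 ∈
    LI (Set.range y)) (yh : Fin a → FreeGroup α) (hyh : ∀ j, φ (yh j) = (y j).1) (C : ℝ)
    (hC0 : 0 ≤ C) (hC : ∀ j, Pa (χ.comp φ) C (yh j)) (g : Mo χ) :
    ∃ w, Pa (χ.comp φ) C w ∧ φ w = g.1 := by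
  classical
  let A : Mo χ → Prop := fun g => ∃ w, Pa (χ.comp φ) C w ∧ φ w = g.1
  have hA : ∀ (g : Mo χ) (j : Fin a), A (g * y j) ↔ A g := by
    intro g j
    have hg : 0 ≤ ht χ g.1 := g.2
    have hht : ∀ w, ht (χ.comp φ) w = ht χ (φ w) := fun _ => rfl
    constructor
    · rintro ⟨w, hw, hwe⟩
      have hwe' : φ w = g.1 * (y j).1 := hwe
      refine ⟨w * (yh j)⁻¹, hw.mul' (hC j).inv ?_, ?_⟩
      · rw [hht, hht, hwe', hyh, ht_mul]; linarith
      · rw [map_mul, map_inv, hyh, hwe', mul_inv_cancel_right]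
    · rintro ⟨w, hw, hwe⟩
      refine ⟨w * yh j, hw.mul' (hC j) ?_, ?_⟩
      · rw [hht, hwe]; linarith
      · rw [map_mul, hyh, hwe]; rfl
  let f : ZM (Mo χ) →+ ℤ := liftM (fun g => if A g then 1 else 0)
  have hf : ∀ g, f (MonoidAlgebra.of ℤ _ g) = if A g then 1 else 0 := fun g => liftM_of _ g
  have h1 : ∀ v : Fin a → ZM (Mo χ), f (bd y v) = 0 := by
    intro v
    have := vec_indM (M := Mo χ) (f.comp (bd y).toAddMonoidHom) 0 (by
      intro j q
      show f (bd y (Pi.single j (MonoidAlgebra.of ℤ (Mo χ) q))) = 0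
      rw [bd_single_of, map_sub, hf, hf]
      by_cases h : A q
      · rw [if_pos h, if_pos ((hA q j).2 h), sub_self]
      · rw [if_neg h, if_neg (fun h' => h ((hA q j).1 h')), sub_self]) v
    exact this
  have h2 := hy g
  rw [← bd_range] at h2
  obtain ⟨v, hv⟩ := h2
  have h3 := h1 v
  rw [hv, map_sub, hf, ← map_one (MonoidAlgebra.of ℤ (Mo χ)), hf] at h3
  have h4 : A 1 := ⟨1, Pa.one hC0, map_one φ⟩
  rw [if_pos h4] at h3
  by_contra hcon
  rw [if_neg hcon] at h3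
  norm_num at h3

/-- geometric form of type `FP_1` -/
theorem conn1 (hφ : Function.Surjective φ) (h : FPm (ZM (Mo χ)) 1 (TrM (Mo χ))) :
    ∃ d, ∀ g, 0 ≤ ht χ g → ∃ w, Pa (χ.comp φ) d w ∧ φ w = g := by
  classical
  obtain ⟨X, hX⟩ := fp1_iff.1 h
  let y : Fin X.card → Mo χ := fun j => (X.equivFin.symm j : Mo χ)
  have hr : Set.range y = (X : Set (Mo χ)) := by
    ext g
    constructor
    · rintro ⟨j, rfl⟩
      exact (X.equivFin.symm j).2
    · intro hg
      exact ⟨X.equivFin ⟨g, hg⟩, by simp [y]⟩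
  choose yh hyh using fun j => hφ (y j).1
  obtain ⟨C, hC0, hC⟩ := fin_bound (Finset.univ : Finset (Fin X.card))
    (fun j d => Pa (χ.comp φ) d (yh j)) (fun j d d' h => Pa.mono h) (fun j _ => Pa.exists _)
  exact ⟨C, fun g hg => conn χ φ y (by rw [hr]; exact hX) yh hyh C hC0
    (fun j => hC j (Finset.mem_univ _)) ⟨g, hg⟩⟩

end conn

/-! ### loops up to commutators -/

section loops
variable {G α : Type} [Group G] (χ : G →* Multiplicative ℝ) (φ : FreeGroup α →* G)
  (R : Set (FreeGroup α))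

/-- loops of bounded depth -/
def IsL (d : ℝ) (w : FreeGroup α) : Prop := φ w = 1 ∧ Pa (χ.comp φ) d w

variable {χ φ}

theorem IsL.ht {d : ℝ} {w : FreeGroup α} (h : IsL χ φ d w) : MS.ht (χ.comp φ) w = 0 := by
  show MS.ht χ (φ w) = 0
  rw [h.1, ht_one]

theorem IsL.mul {d : ℝ} {v w : FreeGroup α} (hv : IsL χ φ d v) (hw : IsL χ φ d w) :
    IsL χ φ d (v * w) :=
  ⟨by rw [map_mul, hv.1, hw.1, mul_one], hv.2.mul' hw.2 (by rw [hv.ht, add_zero])⟩

theorem IsL.inv {d : ℝ} {v : FreeGroup α} (hv : IsL χ φ d v) : IsL χ φ d v⁻¹ :=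
  ⟨by rw [map_inv, hv.1, inv_one], hv.2.inv' (by rw [hv.ht, add_zero])⟩

theorem IsL.one {d : ℝ} (hd : 0 ≤ d) : IsL χ φ d 1 := ⟨map_one φ, Pa.one hd⟩

theorem IsL.mono {d d' : ℝ} (h : d ≤ d') {v : FreeGroup α} (hv : IsL χ φ d v) : IsL χ φ d' v :=
  ⟨hv.1, hv.2.mono h⟩

variable (χ φ)

/-- additive functions on loops -/
structure AddL {A : Type} [AddCommGroup A] (d : ℝ) (c : FreeGroup α → A) : Prop where
  mul : ∀ v w, IsL χ φ d v → IsL χ φ d w → c (v * w) = c v + c w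

variable {χ φ}

theorem AddL.one {A : Type} [AddCommGroup A] {d : ℝ} {c : FreeGroup α → A} (h : AddL χ φ d c)
    (hd : 0 ≤ d) : c 1 = 0 := by
  have := h.mul 1 1 (IsL.one hd) (IsL.one hd)
  rw [mul_one] at this
  exact left_eq_add.1 this

theorem AddL.inv {A : Type} [AddCommGroup A] {d : ℝ} {c : FreeGroup α → A} (h : AddL χ φ d c)
    (hd : 0 ≤ d) {v : FreeGroup α} (hv : IsL χ φ d v) : c v⁻¹ = - c v := by
  have := h.mul v v⁻¹ hv hv.inv
  rw [mul_inv_cancel, h.one hd] at this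
  exact (neg_eq_of_add_eq_zero_right this.symm).symm

variable (χ φ)

/-- the set-up: generators of the augmentation ideal and a transversal -/
structure TD (a : ℕ) where
  yh : Fin a → FreeGroup α
  hy0 : ∀ j, 0 ≤ ht χ (φ (yh j))
  C : ℝ
  hC0 : 0 ≤ C
  hC : ∀ j, Pa (χ.comp φ) C (yh j)
  s : Mo χ → FreeGroup α
  hs : ∀ g, φ (s g) = g.1
  hsC : ∀ g, Pa (χ.comp φ) C (s g)

variable {χ φ}

namespace TD
variable {a : ℕ} (T : TD χ φ a)

/-- the generators as elements of the monoid -/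
def y (j : Fin a) : Mo χ := ⟨φ (T.yh j), T.hy0 j⟩

theorem loop1 (g : Mo χ) (j : Fin a) :
    IsL χ φ T.C (T.s g * T.yh j * (T.s (g * T.y j))⁻¹) := by
  have hg : 0 ≤ ht χ g.1 := g.2
  refine ⟨?_, ?_⟩
  · rw [map_mul, map_mul, map_inv, T.hs, T.hs]
    show g.1 * φ (T.yh j) * (g.1 * φ (T.yh j))⁻¹ = 1
    rw [mul_inv_cancel]
  · refine ((T.hsC g).mul' (T.hC j) ?_).mul' (T.hsC _).inv ?_
    · show T.C ≤ T.C + ht χ (φ (T.s g))
      rw [T.hs]; linarith
    · show T.C + ht χ (φ (T.s (g * T.y j))) ≤ T.C + ht χ (φ (T.s g * T.yh j))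
      rw [T.hs, map_mul, T.hs]
      exact le_refl _

theorem loop2 (g g' : Mo χ) : IsL χ φ T.C (T.s g * T.s g' * (T.s (g * g'))⁻¹) := by
  have hg : 0 ≤ ht χ g.1 := g.2
  refine ⟨?_, ?_⟩
  · rw [map_mul, map_mul, map_inv, T.hs, T.hs, T.hs]
    show g.1 * g'.1 * (g.1 * g'.1)⁻¹ = 1
    rw [mul_inv_cancel]
  · refine ((T.hsC g).mul' (T.hsC g') ?_).mul' (T.hsC _).inv ?_
    · show T.C ≤ T.C + ht χ (φ (T.s g))
      rw [T.hs]; linarith
    · show T.C + ht χ (φ (T.s (g * g'))) ≤ T.C + ht χ (φ (T.s g * T.s g'))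
      rw [T.hs, map_mul, T.hs, T.hs]
      exact le_refl _

theorem loop3 (g : Mo χ) {l : FreeGroup α} (hl : IsL χ φ T.C l) :
    IsL χ φ T.C (T.s g * l * (T.s g)⁻¹) := by
  have hg : 0 ≤ ht χ g.1 := g.2
  refine ⟨?_, ?_⟩
  · rw [map_mul, map_mul, map_inv, hl.1, mul_one, mul_inv_cancel]
  · refine ((T.hsC g).mul' hl.2 ?_).mul' (T.hsC _).inv ?_
    · show T.C ≤ T.C + ht χ (φ (T.s g))
      rw [T.hs]; linarith
    · show T.C + ht χ (φ (T.s g)) ≤ T.C + ht χ (φ (T.s g * l))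
      rw [map_mul, hl.1, mul_one]

/-- loops obtained from paths that stay in the monoid -/
theorem loop4 (g g' : Mo χ) {w : FreeGroup α} (hw : Pa (χ.comp φ) (ht χ g.1) w)
    (hg' : g'.1 = g.1 * φ w) : IsL χ φ T.C (T.s g * w * (T.s g')⁻¹) := by
  refine ⟨?_, ?_⟩
  · rw [map_mul, map_mul, map_inv, T.hs, T.hs, hg', mul_inv_cancel]
  · have := T.hC0
    refine ((T.hsC g).mul' hw ?_).mul' (T.hsC _).inv ?_
    · show ht χ g.1 ≤ T.C + ht χ (φ (T.s g))
      rw [T.hs]; linarith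
    · show T.C + ht χ (φ (T.s g')) ≤ T.C + ht χ (φ (T.s g * w))
      rw [T.hs, map_mul, T.hs, hg']

variable {A : Type} [AddCommGroup A] (c : FreeGroup α → A)

/-- the retraction -/
noncomputable def th : (Fin a → ZM (Mo χ)) →+ A where
  toFun v := ∑ j, liftM (fun g : Mo χ => c (T.s g * T.yh j * (T.s (g * T.y j))⁻¹)) (v j)
  map_zero' := by simp
  map_add' v w := by
    rw [← Finset.sum_add_distrib]
    refine Finset.sum_congr rfl fun j _ => ?_
    rw [Pi.add_apply, map_add]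

theorem th_single (j : Fin a) (q : Mo χ) :
    T.th c (Pi.single j (MonoidAlgebra.of ℤ (Mo χ) q)) =
      c (T.s q * T.yh j * (T.s (q * T.y j))⁻¹) := by
  show ∑ i, liftM _ ((Pi.single j (MonoidAlgebra.of ℤ (Mo χ) q) : Fin a → ZM (Mo χ)) i) = _
  rw [Finset.sum_eq_single j]
  · rw [Pi.single_eq_same, liftM_of]
  · intro i _ hi
    rw [Pi.single_eq_of_ne hi, map_zero]
  · intro h; exact absurd (Finset.mem_univ _) h

/-- the translated retraction -/
noncomputable def thg (g : Mo χ) : (Fin a → ZM (Mo χ)) →+ A :=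
  T.th (fun x => c (T.s g * x * (T.s g)⁻¹))

/-- the defect of equivariance -/
noncomputable def Cg (g : Mo χ) : ZM (Mo χ) →+ A :=
  liftM (fun q => c (T.s g * T.s q * (T.s (g * q))⁻¹))

theorem Cg_of (g q : Mo χ) : T.Cg c g (MonoidAlgebra.of ℤ (Mo χ) q) =
    c (T.s g * T.s q * (T.s (g * q))⁻¹) := liftM_of _ _

variable {c} (hc : AddL χ φ T.C c)

include hc in
theorem th_smul (g : Mo χ) (v : Fin a → ZM (Mo χ)) :
    T.th c (MonoidAlgebra.of ℤ (Mo χ) g • v) = T.thg c g v + T.Cg c g (bd T.y v) := by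
  let F : (Fin a → ZM (Mo χ)) →+ A :=
    AddMonoidHom.mk' (fun v => T.th c (MonoidAlgebra.of ℤ (Mo χ) g • v))
      (fun v w => by rw [smul_add, map_add])
  let H : (Fin a → ZM (Mo χ)) →+ A :=
    AddMonoidHom.mk' (fun v => T.thg c g v + T.Cg c g (bd T.y v))
      (fun v w => by rw [map_add, map_add, map_add]; abel)
  have hF : ∀ v, F v = T.th c (MonoidAlgebra.of ℤ (Mo χ) g • v) := fun _ => rfl
  have hH : ∀ v, H v = T.thg c g v + T.Cg c g (bd T.y v) := fun _ => rfl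
  rw [← hF, ← hH]
  apply vec_indM
  intro j q
  rw [hF, hH]
  have e1 : MonoidAlgebra.of ℤ (Mo χ) g • (Pi.single j (MonoidAlgebra.of ℤ (Mo χ) q) :
      Fin a → ZM (Mo χ)) = Pi.single j (MonoidAlgebra.of ℤ (Mo χ) (g * q)) := by
    rw [← Pi.single_smul, smul_eq_mul, ← map_mul]
  have e2 : T.thg c g (Pi.single j (MonoidAlgebra.of ℤ (Mo χ) q)) =
      c (T.s g * (T.s q * T.yh j * (T.s (q * T.y j))⁻¹) * (T.s g)⁻¹) :=
    T.th_single (fun x => c (T.s g * x * (T.s g)⁻¹)) j q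
  rw [e1, th_single, bd_single_of, map_sub, Cg_of, Cg_of, e2]
  have e : T.s g * (T.s q * T.yh j * (T.s (q * T.y j))⁻¹) * (T.s g)⁻¹ =
      (T.s g * T.s q * (T.s (g * q))⁻¹) *
      ((T.s (g * q) * T.yh j * (T.s (g * q * T.y j))⁻¹) *
        (T.s g * T.s (q * T.y j) * (T.s (g * (q * T.y j)))⁻¹)⁻¹) := by
    rw [mul_assoc g q]
    simp only [mul_inv_rev, inv_inv, mul_assoc, inv_mul_cancel_left]
  rw [e, hc.mul _ _ (T.loop2 g q) ((T.loop1 (g * q) j).mul (T.loop2 _ _).inv),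
    hc.mul _ _ (T.loop1 (g * q) j) (T.loop2 _ _).inv, hc.inv T.hC0 (T.loop2 _ _)]
  abel

/-- representing loops -/
theorem rep (v : Fin a → ZM (Mo χ)) : ∃ l, IsL χ φ T.C l ∧
    ∀ (A : Type) [AddCommGroup A] (c : FreeGroup α → A), AddL χ φ T.C c → ∀ g : Mo χ,
      T.thg c g v = c (T.s g * l * (T.s g)⁻¹) := by
  refine vec_pred (fun v => ∃ l, IsL χ φ T.C l ∧
    ∀ (A : Type) [AddCommGroup A] (c : FreeGroup α → A), AddL χ φ T.C c → ∀ g : Mo χ,
      T.thg c g v = c (T.s g * l * (T.s g)⁻¹)) ?_ ?_ ?_ ?_ v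
  · intro j q
    refine ⟨_, T.loop1 q j, ?_⟩
    intro A _ c hc g
    unfold thg
    rw [th_single]
  · refine ⟨1, IsL.one T.hC0, ?_⟩
    intro A _ c hc g
    rw [map_zero, mul_one, mul_inv_cancel, hc.one T.hC0]
  · rintro v w ⟨l, hl, h1⟩ ⟨l', hl', h2⟩
    refine ⟨l * l', hl.mul hl', ?_⟩
    intro A _ c hc g
    have e : T.s g * (l * l') * (T.s g)⁻¹ =
      (T.s g * l * (T.s g)⁻¹) * (T.s g * l' * (T.s g)⁻¹) := by group
    rw [map_add, h1 A c hc, h2 A c hc, e, hc.mul _ _ (T.loop3 g hl) (T.loop3 g hl')]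
  · rintro v ⟨l, hl, h1⟩
    refine ⟨l⁻¹, hl.inv, ?_⟩
    intro A _ c hc g
    have e : T.s g * l⁻¹ * (T.s g)⁻¹ = (T.s g * l * (T.s g)⁻¹)⁻¹ := by group
    rw [map_neg, h1 A c hc, e, hc.inv T.hC0 (T.loop3 g hl)]

/-- paths in the monoid -/
theorem path (hl : ∀ x : FreeGroup α, Let x → 0 ≤ ht χ (φ x) → ∃ j, T.yh j = x)
    (g : Mo χ) (w : FreeGroup α) (hw : Pa (χ.comp φ) (ht χ g.1) w) :
    ∃ v : Fin a → ZM (Mo χ), ∀ g' : Mo χ, g'.1 = g.1 * φ w →
      bd T.y v = MonoidAlgebra.of ℤ _ g' - MonoidAlgebra.of ℤ _ g ∧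
      ∀ (A : Type) [AddCommGroup A] (c : FreeGroup α → A), AddL χ φ T.C c →
        c (T.s g * w * (T.s g')⁻¹) = T.th c v := by
  induction hw with
  | one h =>
    refine ⟨0, fun g' hg' => ?_⟩
    have : g' = g := Subtype.ext (by rw [hg', map_one, mul_one])
    subst this
    refine ⟨by rw [map_zero, sub_self], ?_⟩
    intro A _ c hc
    rw [mul_one, mul_inv_cancel, hc.one T.hC0, map_zero]
  | step w x hw hx h ih =>
    obtain ⟨v, hv⟩ := ih
    let p : Mo χ := ⟨g.1 * φ w, by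
      have := hw.fin
      show 0 ≤ ht χ (g.1 * φ w)
      rw [ht_mul]; exact this⟩
    have hp : p.1 = g.1 * φ w := rfl
    obtain ⟨hv1, hv2⟩ := hv p hp
    have hq0 : 0 ≤ ht χ (g.1 * φ (w * x)) := by rw [ht_mul]; exact h
    rcases le_total 0 (ht χ (φ x)) with hx0 | hx0
    · obtain ⟨j, hj⟩ := hl x hx hx0
      refine ⟨v + Pi.single j (MonoidAlgebra.of ℤ _ p), fun g' hg' => ?_⟩
      have hg : g' = p * T.y j := Subtype.ext (by
        rw [hg', map_mul, ← mul_assoc]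
        show _ = g.1 * φ w * φ (T.yh j)
        rw [hj])
      refine ⟨by rw [map_add, hv1, bd_single_of, hg]; abel, ?_⟩
      intro A _ c hc
      rw [map_add, th_single, ← hv2 A c hc, ← hc.mul _ _ (T.loop4 g p hw hp) (T.loop1 p j), hj, hg]
      congr 1
      group
    · obtain ⟨j, hj⟩ := hl x⁻¹ hx.inv (by rw [map_inv, ht_inv]; linarith)
      let q : Mo χ := ⟨g.1 * φ (w * x), hq0⟩
      have hpq : p = q * T.y j := Subtype.ext (by
        show g.1 * φ w = g.1 * φ (w * x) * φ (T.yh j)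
        rw [hj, map_mul, map_inv]; group)
      refine ⟨v - Pi.single j (MonoidAlgebra.of ℤ _ q), fun g' hg' => ?_⟩
      have hg : g' = q := Subtype.ext hg'
      subst hg
      refine ⟨by rw [map_sub, hv1, bd_single_of, ← hpq]; abel, ?_⟩
      intro A _ c hc
      rw [map_sub, th_single, ← hv2 A c hc, sub_eq_add_neg, ← hc.inv T.hC0 (T.loop1 _ j),
        ← hc.mul _ _ (T.loop4 g p hw hp) (T.loop1 _ j).inv, ← hpq, hj]
      congr 1
      group

end TD

end loops

end Pool.Agent.TH18.HS
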