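import Pool.Agent.TH18.HS.Hom

/-! Loops up to commutators: the conclusion. -/

set_option autoImplicit false

namespace Pool.Agent.TH18.HS

open Pool.Agent.TH18.NN
open Pool.Agent.TH18.MS

variable {G α : Type} [Group G] {χ : G →* Multiplicative ℝ} {φ : FreeGroup α →* G}
  {R : Set (FreeGroup α)}

theorem TD.kills {a : ℕ} (T : TD χ φ a) (hR : φ.ker = Subgroup.normalClosure R)
    (hl : ∀ x : FreeGroup α, Let x → 0 ≤ ht χ (φ x) → ∃ j, T.yh j = x)
    (hy : ∀ g : Mo χ, MonoidAlgebra.of ℤ (Mo χ) g - 1 ∈ LI (Set.range T.y))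
    (h2 : FPm (ZM (Mo χ)) 2 (TrM (Mo χ))) :
    ∃ d0, 0 ≤ d0 ∧ ∀ (A : Type) [AddCommGroup A] (c : FreeGroup α → A), AddL χ φ T.C c →
      (∀ x ∈ E (χ.comp φ) R d0, c x = 0) → ∀ (g : Mo χ) (w : FreeGroup α), φ w = 1 →
      Pa (χ.comp φ) (ht χ g.1) w → c (T.s g * w * (T.s g)⁻¹) = 0 := by
  obtain ⟨Z, hZ⟩ := bd_ker_fg T.y h2 hy
  choose l hl1 hl2 using T.rep
  obtain ⟨D, hD0, hD⟩ := fin_bound Z (fun z d => l z ∈ E (χ.comp φ) R d)
    (fun z d d' h => E_mem h) (fun z _ => E_exists (by rw [← hR]; exact (hl1 z).1))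
  refine ⟨max T.C D, hD0.trans (le_max_right _ _), ?_⟩
  intro A _ c hc hk g w hw1 hw
  have key : ∀ v ∈ LinearMap.ker (bd T.y), ∀ r : ZM (Mo χ), T.th c (r • v) = 0 := by
    intro v hv
    rw [← hZ] at hv
    induction hv using Submodule.span_induction with
    | mem z hz =>
      have hbz : bd T.y z = 0 := by
        have : z ∈ LinearMap.ker (bd T.y) := by rw [← hZ]; exact Submodule.subset_span hz
        exact this
      intro r
      induction r using MonoidAlgebra.induction_on with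
      | of g =>
        rw [T.th_smul hc, hbz, map_zero, add_zero, hl2 z A c hc g]
        apply hk
        have hg : 0 ≤ ht χ g.1 := g.2
        refine E_conj' ((T.hsC g).mono (le_max_left _ _)) (hD z hz) ?_
        show D ≤ max T.C D + ht χ (φ (T.s g))
        rw [T.hs]
        have := le_max_right T.C D
        linarith
      | add a b ha hb => rw [add_smul, map_add, ha, hb, add_zero]
      | smul r a ha => rw [smul_assoc, map_zsmul, ha, smul_zero]
    | zero => intro r; rw [smul_zero, map_zero]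
    | add a b _ _ ha hb => intro r; rw [smul_add, map_add, ha, hb, add_zero]
    | smul s a _ ha => intro r; rw [smul_smul]; exact ha _
  obtain ⟨v, hv⟩ := T.path hl g w hw
  obtain ⟨hv1, hv2⟩ := hv g (by rw [hw1, mul_one])
  rw [sub_self] at hv1
  rw [hv2 A c hc]
  have := key v hv1 1
  rwa [one_smul] at this

/-- existence of the set-up -/
theorem exists_TD [Finite α] (hφ : Function.Surjective φ) (h1 : FPm (ZM (Mo χ)) 1 (TrM (Mo χ))) :
    ∃ (a : ℕ) (T : TD χ φ a),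
      (∀ x : FreeGroup α, Let x → 0 ≤ ht χ (φ x) → ∃ j, T.yh j = x) ∧
      (∀ g : Mo χ, MonoidAlgebra.of ℤ (Mo χ) g - 1 ∈ LI (Set.range T.y)) := by
  classical
  have : Fintype α := Fintype.ofFinite α
  obtain ⟨X, hX⟩ := fp1_iff.1 h1
  choose lf hlf using fun g : Mo χ => hφ g.1
  let Y0 : Finset (FreeGroup α) := X.image lf ∪
    (Finset.univ.image (fun i : α => FreeGroup.of i) ∪
      Finset.univ.image (fun i : α => (FreeGroup.of i)⁻¹))
  let Y : Finset (FreeGroup α) := Y0.filter (fun x => 0 ≤ ht χ (φ x))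
  let yh : Fin Y.card → FreeGroup α := fun j => (Y.equivFin.symm j : FreeGroup α)
  have hyh : ∀ j, yh j ∈ Y := fun j => (Y.equivFin.symm j).2
  have hyh' : ∀ x ∈ Y, ∃ j, yh j = x := fun x hx => ⟨Y.equivFin ⟨x, hx⟩, by simp [yh]⟩
  have hy0 : ∀ j, 0 ≤ ht χ (φ (yh j)) := fun j => (Finset.mem_filter.1 (hyh j)).2
  let y : Fin Y.card → Mo χ := fun j => ⟨φ (yh j), hy0 j⟩
  have hy : ∀ g : Mo χ, MonoidAlgebra.of ℤ (Mo χ) g - 1 ∈ LI (Set.range y) := by
    intro g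
    refine LI_mono ?_ (hX g)
    intro x hx
    have h3 : lf x ∈ Y := Finset.mem_filter.2 ⟨Finset.mem_union_left _
      (Finset.mem_image.2 ⟨x, hx, rfl⟩), by rw [hlf]; exact x.2⟩
    obtain ⟨j, hj⟩ := hyh' _ h3
    refine ⟨j, Subtype.ext ?_⟩
    show φ (yh j) = x.1
    rw [hj, hlf]
  obtain ⟨C, hC0, hC⟩ := fin_bound (Finset.univ : Finset (Fin Y.card))
    (fun j d => Pa (χ.comp φ) d (yh j)) (fun j d d' h => Pa.mono h) (fun j _ => Pa.exists _)
  choose s hs1 hs2 using conn χ φ y hy yh (fun j => rfl) C hC0 (fun j => hC j (Finset.mem_univ _))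
  refine ⟨Y.card, ⟨yh, hy0, C, hC0, fun j => hC j (Finset.mem_univ _), s, hs2, hs1⟩, ?_, hy⟩
  rintro x ⟨i, hi⟩ hx
  apply hyh'
  refine Finset.mem_filter.2 ⟨Finset.mem_union_right _ ?_, hx⟩
  rcases hi with rfl | rfl
  · exact Finset.mem_union_left _ (Finset.mem_image.2 ⟨i, Finset.mem_univ _, rfl⟩)
  · exact Finset.mem_union_right _ (Finset.mem_image.2 ⟨i, Finset.mem_univ _, rfl⟩)

theorem homStep [Finite α] (hφ : Function.Surjective φ) (hR : φ.ker = Subgroup.normalClosure R)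
    (h2 : FPm (ZM (Mo χ)) 2 (TrM (Mo χ))) (hχ : ∃ k, 0 < ht χ k) (A0 : ℝ) :
    ∃ d, A0 ≤ d ∧ 0 ≤ d ∧ ∀ (A : Type) [AddCommGroup A] (c : FreeGroup α → A), AddL χ φ d c →
      (∀ x ∈ E (χ.comp φ) R d, c x = 0) → ∀ γ, IsL χ φ A0 γ → c γ = 0 := by
  obtain ⟨a, T, hl, hy⟩ := exists_TD hφ (h2.mono (by omega))
  obtain ⟨d0, hd0, hk⟩ := T.kills hR hl hy h2
  obtain ⟨k, hk0⟩ := hχ
  obtain ⟨n, hn⟩ := exists_pow χ hk0 (max 0 A0)
  let g : Mo χ := ⟨k ^ n, (le_max_left _ _).trans hn⟩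
  have hg : max 0 A0 ≤ ht χ g.1 := hn
  have hg0 : 0 ≤ ht χ g.1 := g.2
  have hgA : A0 ≤ ht χ g.1 := (le_max_right _ _).trans hg
  have hC0 := T.hC0
  have hsh : ht (χ.comp φ) (T.s g) = ht χ g.1 := by
    show ht χ (φ (T.s g)) = _
    rw [T.hs]
  refine ⟨d0 + T.C + ht χ g.1, by linarith, by linarith, ?_⟩
  intro A _ c hc hkill γ hγ
  have hsi : Pa (χ.comp φ) (d0 + T.C + ht χ g.1) (T.s g)⁻¹ :=
    (T.hsC g).inv' (by rw [hsh]; linarith)
  -- conjugation of loops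
  have hloop : ∀ x, IsL χ φ T.C x →
      IsL χ φ (d0 + T.C + ht χ g.1) ((T.s g)⁻¹ * x * T.s g) := by
    intro x hx
    refine ⟨by rw [map_mul, map_mul, hx.1, map_inv, mul_one, inv_mul_cancel], ?_⟩
    refine (hsi.mul' hx.2 ?_).mul' (T.hsC g) ?_
    · rw [ht_inv, hsh]; linarith
    · rw [ht_mul, ht_inv, hsh, hx.ht]; linarith
  have h3 := hk A (fun x => c ((T.s g)⁻¹ * x * T.s g)) ⟨fun v w hv hw => by
      have e : (T.s g)⁻¹ * (v * w) * T.s g =
        ((T.s g)⁻¹ * v * T.s g) * ((T.s g)⁻¹ * w * T.s g) := by group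
      rw [e]
      exact hc.mul _ _ (hloop v hv) (hloop w hw)⟩ (fun x hx => by
      apply hkill
      have := E_conj' hsi hx (by rw [ht_inv, hsh]; linarith)
      rwa [inv_inv] at this) g γ hγ.1 (hγ.2.mono hgA)
  have e : (T.s g)⁻¹ * (T.s g * γ * (T.s g)⁻¹) * T.s g = γ := by group
  rw [e] at h3
  exact h3

variable (χ φ)

/-- the group of loops -/
def Lp (d : ℝ) (hd : 0 ≤ d) : Subgroup (FreeGroup α) where
  carrier := {w | IsL χ φ d w}
  one_mem' := IsL.one hd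
  mul_mem' := fun h h' => IsL.mul h h'
  inv_mem' := fun h => IsL.inv h

variable {χ φ}

/-- **Loops lie in every subgroup that contains bounded null-homotopic loops and commutators.** -/
theorem homStep' [Finite α] (hφ : Function.Surjective φ) (hR : φ.ker = Subgroup.normalClosure R)
    (h2 : FPm (ZM (Mo χ)) 2 (TrM (Mo χ))) (hχ : ∃ k, 0 < ht χ k) (A0 : ℝ) :
    ∃ d, ∀ W : Subgroup (FreeGroup α), E (χ.comp φ) R d ≤ W →
      (∀ x y, IsL χ φ d x → IsL χ φ d y → x * y * x⁻¹ * y⁻¹ ∈ W) →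
      ∀ γ, IsL χ φ A0 γ → γ ∈ W := by
  classical
  obtain ⟨d, hd1, hd0, h⟩ := homStep hφ hR h2 hχ A0
  refine ⟨d, fun W hW hWc γ hγ => ?_⟩
  let L := Lp χ φ d hd0
  let N : Subgroup (Abelianization L) := (W.subgroupOf L).map Abelianization.of
  let c : FreeGroup α → Additive (Abelianization L ⧸ N) := fun x =>
    if h : x ∈ L then Additive.ofMul (QuotientGroup.mk (Abelianization.of ⟨x, h⟩)) else 0
  have hcv : ∀ x (h : x ∈ L), c x =
      Additive.ofMul (QuotientGroup.mk (Abelianization.of ⟨x, h⟩)) := fun x h => dif_pos h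
  have hc : AddL χ φ d c := ⟨fun v w hv hw => by
    rw [hcv v hv, hcv w hw, hcv (v * w) (L.mul_mem hv hw)]
    rfl⟩
  have hW0 : ∀ x ∈ W, c x = 0 := by
    intro x hx
    by_cases hxL : x ∈ L
    · rw [hcv x hxL]
      have : (QuotientGroup.mk (Abelianization.of ⟨x, hxL⟩) : Abelianization L ⧸ N) = 1 := by
        rw [QuotientGroup.eq_one_iff]
        exact ⟨⟨x, hxL⟩, hx, rfl⟩
      rw [this]; rfl
    · exact dif_neg hxL
  have hγL : γ ∈ L := hγ.mono hd1
  have h3 := h _ c hc (fun x hx => hW0 x (hW hx)) γ hγ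
  rw [hcv γ hγL] at h3
  have h4 : (QuotientGroup.mk (Abelianization.of ⟨γ, hγL⟩) : Abelianization L ⧸ N) = 1 := h3
  rw [QuotientGroup.eq_one_iff] at h4
  obtain ⟨w, hw, hwe⟩ := h4
  have h5 : w⁻¹ * ⟨γ, hγL⟩ ∈ commutator L := by
    have h6 : Abelianization.of (w⁻¹ * ⟨γ, hγL⟩) = 1 := by
      rw [map_mul, map_inv, hwe, inv_mul_cancel]
    rwa [← MonoidHom.mem_ker, Abelianization.ker_of] at h6
  have h6 : commutator L ≤ W.subgroupOf L := by
    rw [commutator_def, Subgroup.commutator_le]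
    intro x _ y _
    exact hWc x.1 y.1 x.2 y.2
  have h7 : (w⁻¹ * ⟨γ, hγL⟩ : L).1 ∈ W := h6 h5
  have h8 : (w : L).1 ∈ W := hw
  have h9 : γ = w.1 * (w⁻¹ * ⟨γ, hγL⟩ : L).1 := by
    show γ = w.1 * (w.1⁻¹ * γ)
    rw [mul_inv_cancel_left]
  rw [h9]
  exact W.mul_mem h8 h7

end Pool.Agent.TH18.HS
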