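import Pool.Agent.TH18.HS.Hom2
import Pool.Agent.TH18.VS.Pres2

/-! The homotopical invariant: the induction. -/

set_option autoImplicit false

namespace Pool.Agent.TH18.HS

open Pool.Agent.TH18.NN
open Pool.Agent.TH18.MS
open Pool.Agent.TH18.VS

/-- loops of bounded depth bound disks of bounded depth, for every finite presentation -/
def Sig2 (G : Type) [Group G] (χ : G →* Multiplicative ℝ) : Prop :=
  ∀ (r : ℕ) (φ : FreeGroup (Fin r) →* G) (R : Finset (FreeGroup (Fin r))),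
    Function.Surjective φ → φ.ker = Subgroup.normalClosure (R : Set (FreeGroup (Fin r))) →
    ∀ A : ℝ, ∃ d, ∀ w, φ w = 1 → Pa (χ.comp φ) A w →
      w ∈ E (χ.comp φ) (R : Set (FreeGroup (Fin r))) d

theorem fpres_congr {G H : Type} [Group G] [Group H] (e : G ≃* H) (h : FPres G) : FPres H := by
  obtain ⟨r, f, S, hf, hS⟩ := h
  refine ⟨r, e.toMonoidHom.comp f, S, e.surjective.comp hf, ?_⟩
  rw [← hS]
  ext w
  show e (f w) = 1 ↔ f w = 1
  exact map_eq_one_iff e e.injective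

theorem Sig2.congr {G H : Type} [Group G] [Group H] (e : G ≃* H) {χ : G →* Multiplicative ℝ}
    {χ' : H →* Multiplicative ℝ} (h : ∀ g, χ' (e g) = χ g) (hH : Sig2 H χ') : Sig2 G χ := by
  intro r φ R hφ hR A
  have h1 : χ'.comp (e.toMonoidHom.comp φ) = χ.comp φ := MonoidHom.ext fun w => h (φ w)
  obtain ⟨d, hd⟩ := hH r (e.toMonoidHom.comp φ) R (e.surjective.comp hφ) (by
    rw [← hR]
    ext w
    show e (φ w) = 1 ↔ φ w = 1
    exact map_eq_one_iff e e.injective) A
  rw [h1] at hd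
  refine ⟨d, fun w hw hp => hd w ?_ hp⟩
  show e (φ w) = 1
  rw [hw, map_one]

section step
variable {P : Type} [Group P] (K N : Subgroup P) [hKn : K.Normal] [hNn : N.Normal]
  (hKN : K ⊓ N = ⊥) (χ : P →* Multiplicative ℝ) (hχ : ∃ k ∈ K, 0 < ht χ k)

include hKn hNn hKN hχ in
theorem sig2_step (hKfg : Group.FG K)
    (hK1 : FPm (ZM (Mo (χ.comp K.subtype))) 1 (TrM (Mo (χ.comp K.subtype))))
    (h2 : FPm (ZM (Mo χ)) 2 (TrM (Mo χ)))
    (hcase : (∃ n ∈ N, 0 < ht χ n) ∨ (FPres (P ⧸ N) ∧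
      ∃ χ' : P ⧸ N →* Multiplicative ℝ, (∀ g : P, χ' (QuotientGroup.mk g) = χ g) ∧
        Sig2 (P ⧸ N) χ')) : Sig2 P χ := by
  classical
  intro r φ R hφ hR A
  -- words for `K`
  obtain ⟨m, f, hf⟩ := fg_surj K
  obtain ⟨lf, hlf⟩ := hφ.hasRightInverse
  let b : FreeGroup (Fin m) →* FreeGroup (Fin r) :=
    FreeGroup.lift (fun i => lf (f (FreeGroup.of i)).1)
  have hb : φ.comp b = K.subtype.comp f := by
    apply FreeGroup.ext_hom
    intro i
    show φ (FreeGroup.lift _ (FreeGroup.of i)) = (f (FreeGroup.of i)).1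
    rw [FreeGroup.lift_apply_of, hlf]
  have hb' : ∀ w, φ (b w) = (f w).1 := fun w => DFunLike.congr_fun hb w
  obtain ⟨dK, hdK⟩ := conn1 (χ.comp K.subtype) f hf hK1
  have hchi : (χ.comp K.subtype).comp f = χ.comp (φ.comp b) := by
    rw [hb]; rfl
  rw [hchi] at hdK
  have hdK' : ∀ g ∈ K, 0 ≤ ht χ g → ∃ w, Pa (χ.comp (φ.comp b)) dK w ∧ φ (b w) = g := by
    intro g hg h
    obtain ⟨w, hw, hwe⟩ := hdK ⟨g, hg⟩ h
    exact ⟨w, hw, by rw [hb', hwe]⟩
  obtain ⟨k, hk, hk0⟩ := hχ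
  obtain ⟨n, hn⟩ := exists_pow χ hk0 (dK + 1)
  obtain ⟨t, htt⟩ := hf ⟨k ^ n, K.pow_mem hk n⟩
  let D : KDat (Fin r) (Fin m) P :=
    { φ := φ
      χ := χ
      R := (R : Set (FreeGroup (Fin r)))
      hR := hR
      K := K
      hK := hKn
      b := b
      hb := fun w => by rw [hb']; exact (f w).2
      dK := dK
      hdK := hdK'
      t := t
      ht1 := by rw [hb', htt]; exact hn }
  have hDη : D.η = χ.comp φ := rfl
  have hcomm : ∀ z : FreeGroup (Fin r), φ z ∈ N → ∀ w, φ (b w) * φ z = φ z * φ (b w) := by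
    intro z hz w
    exact comm_two K N hKN _ (by rw [hb']; exact (f w).2) _ hz
  rcases hcase with ⟨nn, hnn, hn0⟩ | ⟨hT, χ', hχ', hS⟩
  · -- case B
    obtain ⟨nh, rfl⟩ := hφ nn
    obtain ⟨e, c, he0, hc0, hred⟩ := D.reduce A
    obtain ⟨c', hc0', hB⟩ := D.caseB nh hn0 (hcomm nh hnn)
    refine ⟨e + c + c', fun w hw hp => ?_⟩
    obtain ⟨δ, h1, h2', h3⟩ := hred w hp hw
    have h4 := hB e δ he0 h1 h2'
    have e1 : w = w * (D.b δ)⁻¹ * D.b δ := by group
    rw [e1]
    exact mul_mem (E_mem (by linarith) h3) (E_mem (by linarith) h4)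
  · -- case A
    have hφT : Function.Surjective ((QuotientGroup.mk' N).comp φ) :=
      (QuotientGroup.mk'_surjective N).comp hφ
    obtain ⟨RT, hRT⟩ := hT.ker ((QuotientGroup.mk' N).comp φ) hφT
    have hηT : χ'.comp ((QuotientGroup.mk' N).comp φ) = χ.comp φ :=
      MonoidHom.ext fun w => hχ' (φ w)
    have hzN : ∀ z ∈ RT, φ z ∈ N := by
      intro z hz
      have h3 : z ∈ ((QuotientGroup.mk' N).comp φ).ker := by
        rw [hRT]; exact Subgroup.subset_normalClosure hz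
      exact (QuotientGroup.eq_one_iff _).1 h3
    have h0 : ∀ z ∈ RT, ht D.η z = 0 := by
      intro z hz
      show ht χ (φ z) = 0
      have h3 : χ (φ z) = 1 := by
        rw [← hχ']
        have : (QuotientGroup.mk (φ z) : P ⧸ N) = 1 := (QuotientGroup.eq_one_iff _).2 (hzN z hz)
        rw [this, map_one]
      unfold ht
      rw [h3]; rfl
    have hTT : ∀ A : ℝ, ∃ d, ∀ w, D.φ w = 1 → Pa D.η A w →
        w ∈ E D.η (RT : Set (FreeGroup (Fin r))) d := by
      intro A
      obtain ⟨d, hd⟩ := hS r _ RT hφT hRT A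
      rw [hηT] at hd
      refine ⟨d, fun w hw hp => hd w ?_ hp⟩
      show (QuotientGroup.mk (φ w) : P ⧸ N) = 1
      have : φ w = 1 := hw
      rw [this]; rfl
    obtain ⟨d, hd⟩ := homStep' (χ := χ) hφ hR h2 ⟨k, hk0⟩ A
    obtain ⟨c, hc⟩ := D.caseA RT h0 (fun z hz => hcomm z (hzN z hz)) hTT d
    refine ⟨max c d, fun w hw hp => ?_⟩
    refine hd (E (χ.comp φ) (R : Set (FreeGroup (Fin r))) (max c d)) (E_mono (le_max_right _ _))
      ?_ w ⟨hw, hp⟩
    intro x y hx hy
    exact E_mem (le_max_left _ _) (hc x y hx.1 hy.1 hx.2 hy.2)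

end step

variable {ι : Type} [DecidableEq ι] {Γ : ι → Type} [∀ i, Group (Γ i)]

/-- **The homotopical induction.** -/
theorem sig2_ind : ∀ (s : ℕ) (I : Finset ι) (P : Subgroup (∀ i, Γ i)) (χ : P →* Multiplicative ℝ),
    I.card = s → Supp I P → VSur 2 I P → CN I P → (∀ i ∈ I, FPg 2 (Γ i)) →
    (∀ i ∈ I, FPres (Γ i)) → Xn 2 I P χ → Sig2 P χ := by
  intro s
  induction s with
  | zero =>
    intro I P χ hI hs _ _ _ _ hX
    have h0 : I = ∅ := Finset.card_eq_zero.1 hI
    obtain ⟨x, _, hx⟩ := hX ∅ (Finset.empty_subset _) (by simp)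
    have h1 : x = 1 := Subtype.ext (funext fun i => hs x.1 x.2 i (by
      rw [h0]; exact Finset.notMem_empty _))
    rw [h1, ht_one] at hx
    exact absurd hx (lt_irrefl _)
  | succ s ih =>
    intro I P χ hI hs hv hc hΓ hΓ2 hX
    obtain ⟨m, hm⟩ : I.Nonempty := by
      rw [← Finset.card_pos, hI]; omega
    have hI' : (I.erase m).card = s := by
      rw [Finset.card_erase_of_mem hm, hI]; rfl
    have hχ : ∃ g ∈ (KS P {m}).subgroupOf P, 0 < ht χ g := by
      obtain ⟨x, hx, hx0⟩ := hX {m} (by simpa using hm) (by simp)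
      exact ⟨x, hx, hx0⟩
    -- `K` is finitely generated
    have hK : FPg 1 (KS P {m}) :=
      vsc_aux s 1 (I.erase m) _ hI' (supp_ker hs) (vs_ker hm hv) (cn_ker hm hc)
        (fun i hi => (hΓ i (Finset.mem_of_mem_erase hi)).mono (by omega))
    have hK' : FPg 1 ((KS P {m}).subgroupOf P) :=
      hK.congr (Subgroup.subgroupOfEquivOfLe (KS_le P _)).symm
    -- type `FP_1` over the monoid of `K`
    have hK1 : FPm (ZM (Mo (χ.comp ((KS P {m}).subgroupOf P).subtype))) 1
        (TrM (Mo (χ.comp ((KS P {m}).subgroupOf P).subtype))) := by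
      refine fpm_congr (Mo.congr (Subgroup.subgroupOfEquivOfLe (KS_le P {m})) _
        (χ.comp (Subgroup.inclusion (KS_le P {m}))) ?_) ?_
      · intro g
        rfl
      · exact mvs s 1 (I.erase m) _ _ hI' (supp_ker hs) (vs_ker hm hv) (cn_ker hm hc)
          (fun i hi => (hΓ i (Finset.mem_of_mem_erase hi)).mono (by omega)) (xn_ker hm hX)
    have h2 : FPm (ZM (Mo χ)) 2 (TrM (Mo χ)) := mvs (s + 1) 2 I P χ hI hs hv hc hΓ hX
    refine sig2_step _ _ (inf_bot P hs) χ hχ hK'.fg hK1 h2 ?_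
    by_cases hA : ∀ n ∈ (KS P (I.erase m)).subgroupOf P, χ n = 1
    · right
      have hT : FPres (P.map (proj (I.erase m))) :=
        vsc_pres s (I.erase m) _ hI' (supp_proj _ _) (vs_proj hv) (cn_proj hc)
          (fun i hi => hΓ i (Finset.mem_of_mem_erase hi))
          (fun i hi => hΓ2 i (Finset.mem_of_mem_erase hi))
      let e := eqvP P (I.erase m)
      refine ⟨fpres_congr e.symm hT, ?_⟩
      let χ' : P ⧸ ((KS P (I.erase m)).subgroupOf P) →* Multiplicative ℝ :=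
        QuotientGroup.lift _ χ hA
      have hχ' : ∀ g : P, χ' (QuotientGroup.mk g) = χ g := fun g => rfl
      let χT : P.map (proj (I.erase m)) →* Multiplicative ℝ := χ'.comp e.symm.toMonoidHom
      have hχT : ∀ x, χT (e x) = χ' x := by
        intro x
        show χ' (e.symm (e x)) = χ' x
        rw [MulEquiv.symm_apply_apply]
      have hXT : Xn 2 (I.erase m) (P.map (proj (I.erase m))) χT := by
        intro J hJ hJc
        obtain ⟨x, hx, hx0⟩ := hX J (fun y hy => Finset.mem_of_mem_erase (hJ hy)) hJc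
        refine ⟨e (QuotientGroup.mk x), ⟨(e (QuotientGroup.mk x)).2, fun i hi => ?_⟩, ?_⟩
        · rw [eqvP_mk, proj_mem (hJ hi)]
          exact hx.2 i hi
        · unfold ht
          rw [hχT, hχ']
          exact hx0
      refine ⟨χ', hχ', Sig2.congr e hχT ?_⟩
      exact ih (I.erase m) _ χT hI' (supp_proj _ _) (vs_proj hv) (cn_proj hc)
        (fun i hi => hΓ i (Finset.mem_of_mem_erase hi))
        (fun i hi => hΓ2 i (Finset.mem_of_mem_erase hi)) hXT
    · left
      push Not at hA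
      obtain ⟨n, hn, hn1⟩ := hA
      have hn0 : ht χ n ≠ 0 := fun h => hn1 h
      rcases lt_or_gt_of_ne hn0 with h | h
      · exact ⟨n⁻¹, Subgroup.inv_mem _ hn, by rw [ht_inv]; linarith⟩
      · exact ⟨n, hn, h⟩

end Pool.Agent.TH18.HS
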