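import Pool.Agent.TH18.HS.Slide

/-! Moving loops of `K`-words. -/

set_option autoImplicit false

namespace Pool.Agent.TH18.HS

open Pool.Agent.TH18.MS (ht ht_mul ht_one ht_inv ht_pow)

namespace KDat

variable {α β G : Type} [Group G] (D : KDat α β G) [Finite β] [Finite α]

/-- a bound for the heights of letters -/
theorem let_ht : ∃ c, 0 ≤ c ∧ ∀ x : FreeGroup α, Let x → -ht D.η x ≤ c ∧ ht D.η x ≤ c :=
  let_bound (fun x c => -ht D.η x ≤ c ∧ ht D.η x ≤ c)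
    (fun _ _ _ h h' => ⟨h'.1.trans h, h'.2.trans h⟩)
    (fun x _ => ⟨max (-ht D.η x) (ht D.η x), le_max_left _ _, le_max_right _ _⟩)

/-- moving a loop along one edge -/
theorem move1 : ∃ c2 c3, 0 ≤ c2 ∧ 0 ≤ c3 ∧ ∀ e δ x, Let x → D.φ (D.b δ) = 1 → Pa D.ζ e δ →
    c2 ≤ e → c2 ≤ e + ht D.η x → ∃ δ', D.φ (D.b δ') = 1 ∧ Pa D.ζ (e + ht D.η x) δ' ∧
      D.b δ * (x * D.b δ' * x⁻¹)⁻¹ ∈ D.EE (e + c3) := by
  obtain ⟨c1, hc10, hc1⟩ := D.exists_sig_unif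
  obtain ⟨cP, hcP0, hcP⟩ := D.push
  obtain ⟨ch, hch0, hch⟩ := D.let_ht
  obtain ⟨Ct, hCt⟩ := Pa.exists (η := D.ζ) D.t
  have hCt0 := hCt.nonneg
  have hl := D.lam1
  have hd0 := D.dK0
  obtain ⟨m, hm⟩ := exists_nat_ge (c1 + ch)
  refine ⟨Ct + c1, cP + c1, by linarith, by linarith, ?_⟩
  intro e δ x hx hδ1 hδ he1 he2
  obtain ⟨δ1, h1, h2, h3⟩ := hcP m e δ hδ
  obtain ⟨σ, hσ1, hσ2⟩ := hc1 x hx
  have hlam : ht D.ζ D.t = D.lam := rfl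
  have htm : Pa D.ζ Ct (D.t ^ m) := hCt.pow (by rw [hlam]; linarith) m
  have hδ1v : D.φ (D.b δ1) = 1 := by rw [h2, hδ1]; group
  have hδ1h : ht D.ζ δ1 = 0 := by rw [D.hζ, hδ1v, ht_one]
  -- the pushed loop
  have h4 : Pa D.ζ (max Ct (e - m)) (D.t ^ m * δ1 * (D.t ^ m)⁻¹) := by
    have h5 : Pa D.ζ (max Ct (e - m)) (D.t ^ m) := htm.mono (le_max_left _ _)
    have h6 : Pa D.ζ (max Ct (e - m)) (D.t ^ m * δ1) := by
      refine h5.mul' h1 ?_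
      rw [ht_pow, hlam]
      have := le_max_right Ct (e - m)
      nlinarith
    refine h6.mul' h5.inv ?_
    rw [ht_mul, hδ1h, add_zero]
  obtain ⟨h7, h8⟩ := hσ2 _ _ h4
  refine ⟨σ (D.t ^ m * δ1 * (D.t ^ m)⁻¹), ?_, ?_, ?_⟩
  · rw [hσ1, map_mul, map_mul, map_mul, map_mul, hδ1v, map_inv, map_inv]; group
  · refine h7.mono ?_
    have h9 := hch x hx
    rcases le_total Ct (e - m) with h | h
    · rw [max_eq_right h]; linarith [h9.1]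
    · rw [max_eq_left h]; linarith
  · have e1 : D.b δ * (x * D.b (σ (D.t ^ m * δ1 * (D.t ^ m)⁻¹)) * x⁻¹)⁻¹ =
        (D.b δ * D.b (D.t ^ m) * (D.b δ1)⁻¹ * (D.b (D.t ^ m))⁻¹) *
        (D.b (D.t ^ m * δ1 * (D.t ^ m)⁻¹) * x *
          (D.b (σ (D.t ^ m * δ1 * (D.t ^ m)⁻¹)))⁻¹ * x⁻¹) := by
      rw [map_mul D.b (D.t ^ m * δ1), map_mul D.b (D.t ^ m), map_inv D.b (D.t ^ m)]
      group
    rw [e1]
    refine mul_mem (E_mem (by linarith) h3) (E_mem ?_ h8)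
    have : max Ct (e - m) ≤ e := max_le (by linarith) (by
      have : (0 : ℝ) ≤ m := Nat.cast_nonneg m
      linarith)
    linarith

/-- **Moving a loop along a path.** -/
theorem move : ∃ c2 c3, 0 ≤ c2 ∧ 0 ≤ c3 ∧ ∀ A e δ v, Pa D.η A v → D.φ (D.b δ) = 1 →
    Pa D.ζ e δ → A + c2 ≤ e → ∃ δ', D.φ (D.b δ') = 1 ∧ Pa D.ζ (e + ht D.η v) δ' ∧
      D.b δ * (v * D.b δ' * v⁻¹)⁻¹ ∈ D.EE (e + c3) := by
  obtain ⟨c2, c3, hc2, hc3, h⟩ := D.move1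
  refine ⟨c2, c3, hc2, hc3, ?_⟩
  intro A e δ v hv hδ1 hδ he
  induction hv with
  | one h0 =>
    refine ⟨δ, hδ1, by rw [ht_one, add_zero]; exact hδ, ?_⟩
    have : D.b δ * (1 * D.b δ * 1⁻¹)⁻¹ = 1 := by group
    rw [this]; exact one_mem _
  | step v x hv hx h0 ih =>
    obtain ⟨δ', h1, h2, h3⟩ := ih
    have h4 := hv.fin
    obtain ⟨δ'', h5, h6, h7⟩ := h (e + ht D.η v) δ' x hx h1 h2 (by linarith) (by
      rw [ht_mul] at h0; linarith)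
    refine ⟨δ'', h5, by rw [ht_mul, ← add_assoc]; exact h6, ?_⟩
    have e1 : D.b δ * (v * x * D.b δ'' * (v * x)⁻¹)⁻¹ =
        (D.b δ * (v * D.b δ' * v⁻¹)⁻¹) * (v * (D.b δ' * (x * D.b δ'' * x⁻¹)⁻¹) * v⁻¹) := by
      group
    rw [e1]
    refine mul_mem h3 (E_conj' (hv.mono (by linarith)) h7 (by linarith))

/-- sliding a power of `t` along a path -/
theorem trans (A : ℝ) : ∃ e c, 0 ≤ e ∧ 0 ≤ c ∧ ∀ M : ℕ, ∀ v, Pa D.η A v → ∃ κ δ,
    Pa D.ζ e κ ∧ D.φ (D.b κ) = (D.φ v)⁻¹ * D.φ (D.b (D.t ^ M)) * D.φ v ∧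
    Pa D.ζ e δ ∧ D.φ (D.b δ) = 1 ∧
    D.b (D.t ^ M) * v * (D.b δ * v * D.b κ)⁻¹ ∈ D.EE (e + c) := by
  obtain ⟨c2, c3, hc2, hc3, hmove⟩ := D.move
  obtain ⟨c1, hc10, hc1⟩ := D.exists_sig_unif
  obtain ⟨C, hC0, hC⟩ := D.exists_C
  obtain ⟨Ct, hCt⟩ := Pa.exists (η := D.ζ) D.t
  have hCt0 := hCt.nonneg
  have hl := D.lam1
  have hd0 := D.dK0
  -- the constants
  let B : ℝ := D.dK + Ct
  let e : ℝ := max 0 A + B + c1 + c2
  have hA0 : 0 ≤ max 0 A := le_max_left _ _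
  have hAA : A ≤ max 0 A := le_max_right _ _
  have hB0 : 0 ≤ B := by show 0 ≤ D.dK + Ct; linarith
  have hBe : B ≤ e := by show B ≤ max 0 A + B + c1 + c2; linarith
  refine ⟨e, c1 + c3 + C, hB0.trans hBe, by linarith, fun M v hv => ?_⟩
  have key : ∃ κ δ, Pa D.ζ B κ ∧ D.φ (D.b κ) = (D.φ v)⁻¹ * D.φ (D.b (D.t ^ M)) * D.φ v ∧
      Pa D.ζ e δ ∧ D.φ (D.b δ) = 1 ∧
      D.b (D.t ^ M) * v * (D.b δ * v * D.b κ)⁻¹ ∈ D.EE (e + (c1 + c3 + C)) := by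
    have hlam : ht D.ζ D.t = D.lam := rfl
    have htM0 : 0 ≤ ht D.ζ (D.t ^ M) := by
      rw [ht_pow, hlam]
      exact mul_nonneg (Nat.cast_nonneg M) (by linarith)
    induction hv with
    | one h0 =>
      refine ⟨D.t ^ M, 1, (hCt.pow (by rw [hlam]; linarith) M).mono (by
        show Ct ≤ D.dK + Ct; linarith), ?_, Pa.one (hB0.trans hBe), by rw [map_one, map_one], ?_⟩
      · rw [map_one]; group
      · have : D.b (D.t ^ M) * 1 * (D.b 1 * 1 * D.b (D.t ^ M))⁻¹ = 1 := by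
          rw [map_one]; group
        rw [this]; exact one_mem _
    | step v x hv hx h0 ih =>
      obtain ⟨κ, δ, h1, h2, h3, h4, h5⟩ := ih
      obtain ⟨σ, hσ1, hσ2⟩ := hc1 x hx
      obtain ⟨h6, h7⟩ := hσ2 _ _ h1
      -- the new path
      have hval : D.φ (D.b (σ κ)) = (D.φ (v * x))⁻¹ * D.φ (D.b (D.t ^ M)) * D.φ (v * x) := by
        rw [hσ1, h2, map_mul]; group
      have hKm : (D.φ (v * x))⁻¹ * D.φ (D.b (D.t ^ M)) * D.φ (v * x) ∈ D.K := by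
        rw [← hval]; exact D.hb _
      have hKh : ht D.χ ((D.φ (v * x))⁻¹ * D.φ (D.b (D.t ^ M)) * D.φ (v * x)) =
          ht D.ζ (D.t ^ M) := by
        rw [ht_mul, ht_mul, ht_inv, D.hζ]; ring
      obtain ⟨κ', h8, h9⟩ := D.hdK _ hKm (by rw [hKh]; exact htM0)
      have h8' : Pa D.ζ D.dK κ' := h8
      have hhσ : ht D.ζ (σ κ) = ht D.ζ (D.t ^ M) := by rw [D.hζ, hval, hKh]
      have hhκ' : ht D.ζ κ' = ht D.ζ (D.t ^ M) := by rw [D.hζ, h9, hKh]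
      -- the loop
      have h10 : Pa D.ζ (B + c1) (σ κ * κ'⁻¹) := by
        refine h6.mul' h8'.inv ?_
        rw [hhσ, hhκ']
        show D.dK + _ ≤ D.dK + Ct + c1 + _
        linarith
      have h11 : D.φ (D.b (σ κ * κ'⁻¹)) = 1 := by
        rw [map_mul, map_mul, map_inv, map_inv, hval, h9, mul_inv_cancel]
      have hvx : Pa D.η A (v * x) := Pa.step v x hv hx h0
      obtain ⟨δ2, h12, h13, h14⟩ := hmove (A + ht D.η (v * x)) (e + ht D.η (v * x))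
        (σ κ * κ'⁻¹) (v * x)⁻¹ hvx.inv h11 (h10.mono (by
          show B + c1 ≤ max 0 A + B + c1 + c2 + _
          linarith)) (by
          show A + _ + c2 ≤ max 0 A + B + c1 + c2 + _
          linarith)
      refine ⟨κ', δ * δ2, h8'.mono (by show D.dK ≤ D.dK + Ct; linarith), h9, ?_, ?_, ?_⟩
      · refine h3.mul' (h13.mono (by rw [ht_inv]; linarith : _ ≤ e)) ?_
        rw [D.hζ, h4, ht_one]; linarith
      · rw [map_mul, map_mul, h4, h12, one_mul]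
      · -- the homotopy
        have hvxe : Pa D.η (e + c3) (v * x) := hvx.mono (by
          show A ≤ max 0 A + B + c1 + c2 + c3
          linarith)
        have h15 : (v * x) * (D.b (σ κ * κ'⁻¹) * ((v * x)⁻¹ * D.b δ2 * (v * x)⁻¹⁻¹)⁻¹) *
            (v * x)⁻¹ ∈ D.EE (e + c3) := E_conj' hvxe h14 (by linarith)
        have h16 : v * (D.b κ * x * (D.b (σ κ))⁻¹ * x⁻¹) * v⁻¹ ∈ D.EE (e + c1) := by
          refine E_conj' (hv.mono ?_) h7 ?_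
          · show A ≤ max 0 A + B + c1 + c2 + c1
            linarith
          · have := hv.fin
            show B + c1 ≤ max 0 A + B + c1 + c2 + c1 + _
            linarith
        have hδP : Pa D.η (e + (c1 + c3 + C)) (D.b δ) := (hC _ _ h3).mono (by linarith)
        have hδh : ht D.η (D.b δ) = 0 := by rw [D.hη, h4, ht_one]
        have e1 : D.b (D.t ^ M) * (v * x) * (D.b (δ * δ2) * (v * x) * D.b κ')⁻¹ =
            (D.b (D.t ^ M) * v * (D.b δ * v * D.b κ)⁻¹) *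
            (D.b δ * (v * (D.b κ * x * (D.b (σ κ))⁻¹ * x⁻¹) * v⁻¹ *
              ((v * x) * (D.b (σ κ * κ'⁻¹) * ((v * x)⁻¹ * D.b δ2 * (v * x)⁻¹⁻¹)⁻¹) *
              (v * x)⁻¹)) * (D.b δ)⁻¹) := by
          rw [map_mul D.b δ, map_mul D.b (σ κ), map_inv D.b κ']
          group
        rw [e1]
        refine mul_mem h5 (E_conj' hδP (mul_mem (E_mem (by linarith) h16)
          (E_mem (by linarith) h15) : _ ∈ D.EE (e + (c1 + c3 + C))) ?_)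
        rw [hδh, add_zero]
  obtain ⟨κ, δ, h1, h2, h3, h4, h5⟩ := key
  exact ⟨κ, δ, h1.mono hBe, h2, h3, h4, h5⟩

/-- **Every loop is homotopic to a loop of `K`-words.** -/
theorem reduce (A : ℝ) : ∃ e c, 0 ≤ e ∧ 0 ≤ c ∧ ∀ γ, Pa D.η A γ → D.φ γ = 1 → ∃ δ,
    Pa D.ζ e δ ∧ D.φ (D.b δ) = 1 ∧ γ * (D.b δ)⁻¹ ∈ D.EE (e + c) := by
  obtain ⟨e, c, he0, hc0, h⟩ := D.trans A
  obtain ⟨C, hC0, hC⟩ := D.exists_C
  obtain ⟨Ct, hCt⟩ := Pa.exists (η := D.ζ) D.t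
  have hCt0 := hCt.nonneg
  have hl := D.lam1
  have hd0 := D.dK0
  have hlam : ht D.ζ D.t = D.lam := rfl
  refine ⟨e + Ct, c + C, by linarith, by linarith, fun γ hγ hγ1 => ?_⟩
  obtain ⟨M, hM⟩ := far_up (η := D.η) (R := D.R) (d := Ct + C) (t := D.b D.t) (x := γ)
    (by rw [D.hηb, hlam]; linarith) (hC _ _ hCt) (by
      rw [← D.hR]; exact hγ1)
  obtain ⟨κ, δ, h1, h2, h3, h4, h5⟩ := h M γ hγ
  rw [hγ1] at h2
  have h2' : D.φ (D.b κ) = D.φ (D.b (D.t ^ M)) := by rw [h2]; group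
  have hh : ht D.ζ κ = ht D.ζ (D.t ^ M) := by rw [D.hζ, D.hζ, h2']
  have hδh : ht D.ζ δ = 0 := by rw [D.hζ, h4, ht_one]
  have htM : Pa D.ζ Ct (D.t ^ M) := hCt.pow (by rw [hlam]; linarith) M
  have h6 := hM M le_rfl
  rw [← map_pow] at h6
  have hδi : Pa D.ζ e δ⁻¹ := h3.inv' (by rw [hδh, add_zero])
  refine ⟨δ⁻¹ * (D.t ^ M * κ⁻¹), ?_, ?_, ?_⟩
  · refine (hδi.mono (by linarith)).mul' (e := e + Ct) ?_ (by rw [ht_inv, hδh]; linarith)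
    refine (htM.mono (by linarith)).mul' h1.inv ?_
    rw [hh]; linarith
  · rw [map_mul, map_mul, map_mul, map_mul, map_inv, map_inv, map_inv, map_inv, h4, h2']; group
  · have e1 : γ * (D.b (δ⁻¹ * (D.t ^ M * κ⁻¹)))⁻¹ =
        (D.b δ)⁻¹ * ((D.b (D.t ^ M) * γ * (D.b δ * γ * D.b κ)⁻¹)⁻¹ *
          (D.b (D.t ^ M) * γ * (D.b (D.t ^ M))⁻¹)) * ((D.b δ)⁻¹)⁻¹ := by
      rw [map_mul, map_mul, map_inv, map_inv]; group
    rw [e1]
    refine E_conj' (d := e + Ct + (c + C)) ?_ (mul_mem (inv_mem (E_mem (by linarith) h5))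
      (E_mem (by linarith) h6) : _ ∈ D.EE (e + Ct + (c + C))) ?_
    · have := hC _ _ hδi
      rw [map_inv] at this
      exact this.mono (by linarith)
    · rw [ht_inv, D.hηb, hδh]; linarith

/-- a loop of `K`-words is null-homotopic if there is a commuting element of positive height -/
theorem caseB (nn : FreeGroup α) (hn0 : 0 < ht D.η nn)
    (hn : ∀ w, D.φ (D.b w) * D.φ nn = D.φ nn * D.φ (D.b w)) :
    ∃ c, 0 ≤ c ∧ ∀ e δ, 0 ≤ e → Pa D.ζ e δ → D.φ (D.b δ) = 1 → D.b δ ∈ D.EE (e + c) := by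
  obtain ⟨c, hc0, hc⟩ := D.slide nn (MonoidHom.id _) hn
  obtain ⟨Cn, hCn⟩ := Pa.exists (η := D.η) nn
  have hCn0 := hCn.nonneg
  refine ⟨c + Cn, by linarith, fun e δ he hδ hδ1 => ?_⟩
  have h1 : ∀ M : ℕ, D.b δ * nn ^ M * (D.b δ)⁻¹ * (nn ^ M)⁻¹ ∈ D.EE (e + (c + Cn)) := by
    intro M
    induction M with
    | zero =>
      have : D.b δ * nn ^ 0 * (D.b δ)⁻¹ * (nn ^ 0)⁻¹ = 1 := by rw [pow_zero]; group
      rw [this]; exact one_mem _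
    | succ M ih =>
      have e1 : D.b δ * nn ^ (M + 1) * (D.b δ)⁻¹ * (nn ^ (M + 1))⁻¹ =
          (D.b δ * nn ^ M * (D.b δ)⁻¹ * (nn ^ M)⁻¹) *
          (nn ^ M * (D.b δ * nn * (D.b δ)⁻¹ * nn⁻¹) * (nn ^ M)⁻¹) := by
        rw [pow_succ]; group
      rw [e1]
      refine mul_mem ih (E_conj' ((hCn.pow hn0.le M).mono (by linarith)) (hc _ _ hδ) ?_)
      rw [ht_pow]
      have : 0 ≤ (M : ℝ) * ht D.η nn := mul_nonneg (Nat.cast_nonneg M) hn0.le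
      linarith
  obtain ⟨M, hM⟩ := far_up (η := D.η) (R := D.R) (x := D.b δ) hn0 hCn (by
      rw [← D.hR]; exact hδ1)
  have h2 := hM M le_rfl
  have h3 := h1 M
  have e1 : D.b δ = (D.b δ * nn ^ M * (D.b δ)⁻¹ * (nn ^ M)⁻¹) *
      (nn ^ M * D.b δ * (nn ^ M)⁻¹) := by group
  rw [e1]
  exact mul_mem h3 (E_mem (by linarith) h2)

end KDat

end Pool.Agent.TH18.HS
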