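import Pool.Agent.TH18.MS.Final

/-! Paths in Cayley graphs above a given height and null-homotopic loops. -/

set_option autoImplicit false

namespace Pool.Agent.TH18.HS

open Pool.Agent.TH18.MS (ht ht_mul ht_one ht_inv ht_pow)

/-- letters -/
def Let {α : Type} (y : FreeGroup α) : Prop := ∃ a, y = FreeGroup.of a ∨ y = (FreeGroup.of a)⁻¹

theorem Let.inv {α : Type} {y : FreeGroup α} (h : Let y) : Let y⁻¹ := by
  obtain ⟨a, h | h⟩ := h
  · exact ⟨a, Or.inr (by rw [h])⟩
  · exact ⟨a, Or.inl (by rw [h, inv_inv])⟩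

/-- a bound for finitely many letters -/
theorem let_bound {α : Type} [Finite α] (f : FreeGroup α → ℝ → Prop)
    (hm : ∀ y d d', d ≤ d' → f y d → f y d') (h : ∀ y, Let y → ∃ d, f y d) :
    ∃ d, 0 ≤ d ∧ ∀ y, Let y → f y d := by
  classical
  have : Fintype α := Fintype.ofFinite α
  have h1 : ∀ a : α, ∃ d, 0 ≤ d ∧ f (FreeGroup.of a) d ∧ f (FreeGroup.of a)⁻¹ d := by
    intro a
    obtain ⟨d1, h1⟩ := h (FreeGroup.of a) ⟨a, Or.inl rfl⟩
    obtain ⟨d2, h2⟩ := h (FreeGroup.of a)⁻¹ ⟨a, Or.inr rfl⟩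
    exact ⟨max 0 (max d1 d2), le_max_left _ _,
      hm _ _ _ ((le_max_left _ _).trans (le_max_right _ _)) h1,
      hm _ _ _ ((le_max_right _ _).trans (le_max_right _ _)) h2⟩
  choose d hd0 hd1 hd2 using h1
  refine ⟨∑ a, d a, Finset.sum_nonneg fun a _ => hd0 a, ?_⟩
  rintro y ⟨a, rfl | rfl⟩
  · exact hm _ _ _ (Finset.single_le_sum (fun a _ => hd0 a) (Finset.mem_univ a)) (hd1 a)
  · exact hm _ _ _ (Finset.single_le_sum (fun a _ => hd0 a) (Finset.mem_univ a)) (hd2 a)

/-- a bound for finitely many elements -/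
theorem fin_bound {β : Type} (T : Finset β) (f : β → ℝ → Prop)
    (hm : ∀ y d d', d ≤ d' → f y d → f y d') (h : ∀ y ∈ T, ∃ d, f y d) :
    ∃ d, 0 ≤ d ∧ ∀ y ∈ T, f y d := by
  classical
  induction T using Finset.induction_on with
  | empty => exact ⟨0, le_refl _, by simp⟩
  | insert a T ha ih =>
    obtain ⟨d, hd0, hd⟩ := ih (fun y hy => h y (Finset.mem_insert_of_mem hy))
    obtain ⟨d', hd'⟩ := h a (Finset.mem_insert_self _ _)
    refine ⟨max d d', hd0.trans (le_max_left _ _), fun y hy => ?_⟩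
    rcases Finset.mem_insert.1 hy with rfl | hy
    · exact hm _ _ _ (le_max_right _ _) hd'
    · exact hm _ _ _ (le_max_left _ _) (hd y hy)

section path
variable {α : Type} (η : FreeGroup α →* Multiplicative ℝ)

/-- the element `w` is reached by a path from `1` of depth at most `d` -/
inductive Pa (d : ℝ) : FreeGroup α → Prop
  | one (h : 0 ≤ d) : Pa d 1
  | step (w y : FreeGroup α) (hw : Pa d w) (hy : Let y) (h : 0 ≤ d + ht η (w * y)) : Pa d (w * y)

variable {η}

theorem Pa.nonneg {d : ℝ} {w : FreeGroup α} (h : Pa η d w) : 0 ≤ d := by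
  induction h with
  | one h => exact h
  | step w y hw hy h ih => exact ih

theorem Pa.fin {d : ℝ} {w : FreeGroup α} (h : Pa η d w) : 0 ≤ d + ht η w := by
  cases h with
  | one h => rw [ht_one, add_zero]; exact h
  | step w y hw hy h => exact h

theorem Pa.mono {d d' : ℝ} (hd : d ≤ d') {w : FreeGroup α} (h : Pa η d w) : Pa η d' w := by
  induction h with
  | one h => exact Pa.one (h.trans hd)
  | step w y hw hy h ih => exact Pa.step w y ih hy (by linarith)

theorem Pa.letter {d : ℝ} {y : FreeGroup α} (hy : Let y) (h0 : 0 ≤ d) (h : 0 ≤ d + ht η y) :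
    Pa η d y := by
  have := Pa.step (η := η) 1 y (Pa.one h0) hy (by rwa [one_mul])
  rwa [one_mul] at this

theorem Pa.mul {d : ℝ} {u v : FreeGroup α} (hu : Pa η d u) (hv : Pa η (d + ht η u) v) :
    Pa η d (u * v) := by
  induction hv with
  | one h => rwa [mul_one]
  | step w y hw hy h ih =>
    rw [← mul_assoc]
    refine Pa.step _ y ih hy ?_
    rw [mul_assoc, ht_mul]
    linarith

theorem Pa.mul' {d e : ℝ} {u v : FreeGroup α} (hu : Pa η d u) (hv : Pa η e v)
    (he : e ≤ d + ht η u) : Pa η d (u * v) := hu.mul (hv.mono he)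

theorem Pa.inv {d : ℝ} {u : FreeGroup α} (hu : Pa η d u) : Pa η (d + ht η u) u⁻¹ := by
  induction hu with
  | one h => rw [inv_one, ht_one, add_zero]; exact Pa.one h
  | step w y hw hy h ih =>
    rw [mul_inv_rev]
    have h1 : Pa η (d + ht η (w * y)) y⁻¹ := by
      refine Pa.letter hy.inv h ?_
      rw [ht_inv, ht_mul]
      have := hw.fin
      linarith
    refine h1.mul' ih ?_
    rw [ht_inv, ht_mul]
    linarith

theorem Pa.inv' {d e : ℝ} {u : FreeGroup α} (hu : Pa η d u) (he : d + ht η u ≤ e) :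
    Pa η e u⁻¹ := hu.inv.mono he

theorem Pa.exists (w : FreeGroup α) : ∃ d, Pa η d w := by
  induction w using FreeGroup.induction_on with
  | C1 => exact ⟨0, Pa.one le_rfl⟩
  | of a =>
    refine ⟨max 0 (-ht η (FreeGroup.of a)), Pa.letter ⟨a, Or.inl rfl⟩ (le_max_left _ _) ?_⟩
    have := le_max_right 0 (-ht η (FreeGroup.of a))
    linarith
  | inv_of a h =>
    refine ⟨max 0 (-ht η (FreeGroup.of a)⁻¹), Pa.letter ⟨a, Or.inr rfl⟩ (le_max_left _ _) ?_⟩
    have := le_max_right 0 (-ht η (FreeGroup.of a)⁻¹)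
    linarith
  | mul x y hx hy =>
    obtain ⟨d, hd⟩ := hx
    obtain ⟨e, he⟩ := hy
    refine ⟨max d (e - ht η x), (hd.mono (le_max_left _ _)).mul' he ?_⟩
    have := le_max_right d (e - ht η x)
    linarith

/-- powers of an element of nonnegative height -/
theorem Pa.pow {d : ℝ} {u : FreeGroup α} (hu : Pa η d u) (h0 : 0 ≤ ht η u) (n : ℕ) :
    Pa η d (u ^ n) := by
  induction n with
  | zero => rw [pow_zero]; exact Pa.one hu.nonneg
  | succ n ih =>
    rw [pow_succ]
    refine ih.mul' hu ?_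
    rw [ht_pow]
    have : 0 ≤ (n : ℝ) * ht η u := mul_nonneg (Nat.cast_nonneg n) h0
    linarith

variable (η) (R : Set (FreeGroup α))

/-- the null-homotopic loops of depth at most `d` -/
def E (d : ℝ) : Subgroup (FreeGroup α) :=
  Subgroup.closure {x | ∃ u r, r ∈ R ∧ Pa η d u ∧ Pa η (d + ht η u) r ∧ x = u * r * u⁻¹}

variable {η R}

theorem E_mono {d d' : ℝ} (h : d ≤ d') : E η R d ≤ E η R d' := by
  apply Subgroup.closure_mono
  rintro x ⟨u, r, hr, hu, hr', rfl⟩
  exact ⟨u, r, hr, hu.mono h, hr'.mono (by linarith), rfl⟩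

theorem E_mem {d d' : ℝ} (h : d ≤ d') {x : FreeGroup α} (hx : x ∈ E η R d) : x ∈ E η R d' :=
  E_mono h hx

theorem E_conj {d : ℝ} {v x : FreeGroup α} (hv : Pa η d v) (hx : x ∈ E η R (d + ht η v)) :
    v * x * v⁻¹ ∈ E η R d := by
  unfold E at hx
  induction hx using Subgroup.closure_induction with
  | mem x hx =>
    obtain ⟨u, r, hr, hu, hr', rfl⟩ := hx
    apply Subgroup.subset_closure
    refine ⟨v * u, r, hr, hv.mul hu, ?_, by group⟩
    rw [ht_mul, ← add_assoc]; exact hr'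
  | one =>
    have : v * 1 * v⁻¹ = 1 := by group
    rw [this]; exact one_mem _
  | mul x y _ _ hx hy =>
    have : v * (x * y) * v⁻¹ = (v * x * v⁻¹) * (v * y * v⁻¹) := by group
    rw [this]; exact mul_mem hx hy
  | inv x _ hx =>
    have : v * x⁻¹ * v⁻¹ = (v * x * v⁻¹)⁻¹ := by group
    rw [this]; exact inv_mem hx

theorem E_conj' {d e : ℝ} {v x : FreeGroup α} (hv : Pa η d v) (hx : x ∈ E η R e)
    (he : e ≤ d + ht η v) : v * x * v⁻¹ ∈ E η R d := E_conj hv (E_mem he hx)

theorem E_exists {x : FreeGroup α} (hx : x ∈ Subgroup.normalClosure R) : ∃ d, x ∈ E η R d := by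
  unfold Subgroup.normalClosure at hx
  induction hx using Subgroup.closure_induction with
  | mem x hx =>
    rw [Group.mem_conjugatesOfSet_iff] at hx
    obtain ⟨r, hr, hc⟩ := hx
    obtain ⟨u, hu⟩ := isConj_iff.1 hc
    obtain ⟨d, hd⟩ := Pa.exists (η := η) u
    obtain ⟨e, he⟩ := Pa.exists (η := η) r
    refine ⟨max d (e - ht η u), Subgroup.subset_closure ⟨u, r, hr, hd.mono (le_max_left _ _),
      he.mono ?_, hu.symm⟩⟩
    have := le_max_right d (e - ht η u)
    linarith
  | one => exact ⟨0, one_mem _⟩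
  | mul x y _ _ hx hy =>
    obtain ⟨d, hd⟩ := hx
    obtain ⟨e, he⟩ := hy
    exact ⟨max d e, mul_mem (E_mem (le_max_left _ _) hd) (E_mem (le_max_right _ _) he)⟩
  | inv x _ hx =>
    obtain ⟨d, hd⟩ := hx
    exact ⟨d, inv_mem hd⟩

/-- elements of `E` are loops when the relators have height zero -/
theorem E_pa (hR : ∀ r ∈ R, ht η r = 0) {d : ℝ} (hd : 0 ≤ d) {x : FreeGroup α}
    (hx : x ∈ E η R d) : Pa η d x ∧ ht η x = 0 := by
  unfold E at hx
  induction hx using Subgroup.closure_induction with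
  | mem x hx =>
    obtain ⟨u, r, hr, hu, hr', rfl⟩ := hx
    refine ⟨(hu.mul hr').mul' (hu.inv) ?_, ?_⟩
    · rw [ht_mul, hR r hr]; linarith
    · rw [ht_mul, ht_mul, ht_inv, hR r hr]; ring
  | one => exact ⟨Pa.one hd, ht_one _⟩
  | mul x y _ _ hx hy =>
    refine ⟨hx.1.mul' hy.1 ?_, ?_⟩
    · rw [hx.2]; linarith
    · rw [ht_mul, hx.2, hy.2]; ring
  | inv x _ hx =>
    refine ⟨hx.1.inv' ?_, ?_⟩
    · rw [hx.2]; linarith
    · rw [ht_inv, hx.2]; ring

/-- conjugating far up -/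
theorem far_up {d : ℝ} {t x : FreeGroup α} (ht0 : 0 < ht η t) (hd : Pa η d t)
    (hx : x ∈ Subgroup.normalClosure R) :
    ∃ M0 : ℕ, ∀ M, M0 ≤ M → t ^ M * x * (t ^ M)⁻¹ ∈ E η R d := by
  obtain ⟨e, he⟩ := E_exists (η := η) hx
  obtain ⟨M0, hM⟩ := exists_nat_ge (e / ht η t)
  refine ⟨M0, fun M hM' => E_conj' (hd.pow ht0.le M) he ?_⟩
  rw [ht_pow]
  have h1 : (M0 : ℝ) ≤ M := by exact_mod_cast hM'
  have h2 : e / ht η t ≤ M := hM.trans h1
  rw [div_le_iff₀ ht0] at h2
  have := hd.nonneg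
  linarith

end path

/-! ### substitutions -/

section sub
variable {α β : Type} {η : FreeGroup α →* Multiplicative ℝ} {θ : FreeGroup β →* FreeGroup α}
  {ζ : FreeGroup β →* Multiplicative ℝ}

theorem Pa.map {a : ℝ} (hζ : ∀ w, ht η (θ w) = ht ζ w)
    (h : ∀ i, Pa η (a + max 0 (-ht ζ (FreeGroup.of i))) (θ (FreeGroup.of i)))
    (ha : 0 ≤ a) {d : ℝ} {w : FreeGroup β} (hw : Pa ζ d w) : Pa η (d + a) (θ w) := by
  have hl : ∀ y, Let y → Pa η (a + max 0 (-ht ζ y)) (θ y) := by
    rintro y ⟨i, rfl | rfl⟩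
    · exact h i
    · rw [map_inv]
      refine (h i).inv' ?_
      rw [hζ, ht_inv, neg_neg, add_assoc]
      have : max 0 (-ht ζ (FreeGroup.of i)) + ht ζ (FreeGroup.of i) ≤
          max 0 (ht ζ (FreeGroup.of i)) := by
        rcases le_total 0 (-ht ζ (FreeGroup.of i)) with h1 | h1
        · rw [max_eq_right h1]
          have := le_max_left 0 (ht ζ (FreeGroup.of i))
          linarith
        · rw [max_eq_left h1]
          have := le_max_right 0 (ht ζ (FreeGroup.of i))
          linarith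
      linarith
  induction hw with
  | one h => rw [map_one]; exact Pa.one (by linarith)
  | step w y hw hy h ih =>
    rw [map_mul]
    refine ih.mul' (hl y hy) ?_
    rw [hζ]
    have h1 := hw.fin
    rw [ht_mul] at h
    have : max 0 (-ht ζ y) ≤ d + ht ζ w := max_le h1 (by linarith)
    linarith

end sub

end Pool.Agent.TH18.HS
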