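import Pool.Agent.TH18.HS.Path

/-! Sliding and pushing paths. -/

set_option autoImplicit false

namespace Pool.Agent.TH18.HS

open Pool.Agent.TH18.MS (ht ht_mul ht_one ht_inv ht_pow)

/-- data for a finitely presented group with a normal subgroup -/
structure KDat (α β G : Type) [Group G] where
  φ : FreeGroup α →* G
  χ : G →* Multiplicative ℝ
  R : Set (FreeGroup α)
  hR : φ.ker = Subgroup.normalClosure R
  K : Subgroup G
  hK : K.Normal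
  b : FreeGroup β →* FreeGroup α
  hb : ∀ w, φ (b w) ∈ K
  dK : ℝ
  hdK : ∀ g ∈ K, 0 ≤ ht χ g → ∃ w, Pa (χ.comp (φ.comp b)) dK w ∧ φ (b w) = g
  t : FreeGroup β
  ht1 : dK + 1 ≤ ht χ (φ (b t))

namespace KDat

variable {α β G : Type} [Group G] (D : KDat α β G)

/-- height on words -/
def η : FreeGroup α →* Multiplicative ℝ := D.χ.comp D.φ

/-- height on `K`-words -/
def ζ : FreeGroup β →* Multiplicative ℝ := D.χ.comp (D.φ.comp D.b)

theorem hη (w : FreeGroup α) : ht D.η w = ht D.χ (D.φ w) := rfl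
theorem hζ (w : FreeGroup β) : ht D.ζ w = ht D.χ (D.φ (D.b w)) := rfl
theorem hηb (w : FreeGroup β) : ht D.η (D.b w) = ht D.ζ w := rfl

/-- bounded null-homotopies -/
abbrev EE (d : ℝ) : Subgroup (FreeGroup α) := E D.η D.R d

theorem ker_exists {x : FreeGroup α} (hx : D.φ x = 1) : ∃ d, x ∈ D.EE d := by
  have h1 : x ∈ D.φ.ker := hx
  rw [D.hR] at h1
  exact E_exists h1

theorem dK0 : 0 ≤ D.dK := by
  obtain ⟨w, hw, _⟩ := D.hdK 1 D.K.one_mem (by rw [ht_one])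
  exact hw.nonneg

theorem hbs {g : G} (hg : g ∈ D.K) : ∃ w, D.φ (D.b w) = g := by
  rcases le_total 0 (ht D.χ g) with h | h
  · obtain ⟨w, _, hw⟩ := D.hdK g hg h
    exact ⟨w, hw⟩
  · obtain ⟨w, _, hw⟩ := D.hdK g⁻¹ (D.K.inv_mem hg) (by rw [ht_inv]; linarith)
    exact ⟨w⁻¹, by rw [map_inv, map_inv, hw, inv_inv]⟩

theorem hR0 : ∀ r ∈ D.R, ht D.η r = 0 := by
  intro r hr
  have h1 : r ∈ D.φ.ker := by rw [D.hR]; exact Subgroup.subset_normalClosure hr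
  rw [D.hη, MonoidHom.mem_ker.1 h1, ht_one]

/-- height of the pushing element -/
def lam : ℝ := ht D.ζ D.t

theorem lam1 : D.dK + 1 ≤ D.lam := D.ht1

variable [Finite β]

/-- substitution of `K`-words in words -/
theorem exists_C : ∃ C, 0 ≤ C ∧ ∀ d w, Pa D.ζ d w → Pa D.η (d + C) (D.b w) := by
  obtain ⟨C, hC0, hC⟩ := let_bound (fun (y : FreeGroup β) d => Pa D.η d (D.b y))
    (fun y d d' h => Pa.mono h) (fun y _ => Pa.exists _)
  refine ⟨C, hC0, fun d w hw => Pa.map (D.hηb) (fun i => ?_) hC0 hw⟩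
  refine (hC _ ⟨i, Or.inl rfl⟩).mono ?_
  have := le_max_left 0 (-ht D.ζ (FreeGroup.of i))
  linarith

/-- **Sliding.** -/
theorem slide (x : FreeGroup α) (θ : FreeGroup β →* FreeGroup β)
    (h : ∀ w, D.φ (D.b w) * D.φ x = D.φ x * D.φ (D.b (θ w))) :
    ∃ c, 0 ≤ c ∧ ∀ d w, Pa D.ζ d w → D.b w * x * (D.b (θ w))⁻¹ * x⁻¹ ∈ D.EE (d + c) := by
  obtain ⟨C, hC0, hC⟩ := D.exists_C
  obtain ⟨c, hc0, hc⟩ := let_bound (fun (y : FreeGroup β) d =>
      D.b y * x * (D.b (θ y))⁻¹ * x⁻¹ ∈ D.EE d)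
    (fun y d d' h => E_mem h) (fun y _ => by
      apply D.ker_exists
      rw [map_mul, map_mul, map_mul, map_inv, map_inv, h y]
      group)
  refine ⟨C + c, by linarith, fun d w hw => ?_⟩
  induction hw with
  | one h =>
    have : D.b 1 * x * (D.b (θ 1))⁻¹ * x⁻¹ = 1 := by
      rw [map_one, map_one, map_one]; group
    rw [this]; exact one_mem _
  | step w y hw hy h ih =>
    have e : D.b (w * y) * x * (D.b (θ (w * y)))⁻¹ * x⁻¹ =
        D.b w * (D.b y * x * (D.b (θ y))⁻¹ * x⁻¹) * (D.b w)⁻¹ *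
        (D.b w * x * (D.b (θ w))⁻¹ * x⁻¹) := by
      rw [map_mul, map_mul, map_mul]; group
    rw [e]
    refine mul_mem ?_ ih
    refine E_conj' ((hC d w hw).mono (by linarith)) (hc y hy) ?_
    rw [D.hηb]
    have := hw.fin
    linarith

/-- the substitution attached to a word -/
theorem exists_sig (x : FreeGroup α) : ∃ c, 0 ≤ c ∧ ∃ σ : FreeGroup β →* FreeGroup β,
    (∀ w, D.φ (D.b (σ w)) = (D.φ x)⁻¹ * D.φ (D.b w) * D.φ x) ∧
    (∀ d w, Pa D.ζ d w → Pa D.ζ (d + c) (σ w) ∧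
      D.b w * x * (D.b (σ w))⁻¹ * x⁻¹ ∈ D.EE (d + c)) := by
  have h1 : ∀ i : β, ∃ w, D.φ (D.b w) = (D.φ x)⁻¹ * D.φ (D.b (FreeGroup.of i)) * D.φ x := by
    intro i
    apply D.hbs
    have := D.hK.conj_mem _ (D.hb (FreeGroup.of i)) (D.φ x)⁻¹
    rwa [inv_inv] at this
  choose s hs using h1
  let σ : FreeGroup β →* FreeGroup β := FreeGroup.lift s
  have hσ : ∀ w, D.φ (D.b (σ w)) = (D.φ x)⁻¹ * D.φ (D.b w) * D.φ x := by
    intro w
    have h2 : (D.φ.comp (D.b.comp σ)) = (MulAut.conj (D.φ x)⁻¹).toMonoidHom.comp (D.φ.comp D.b) := by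
      apply FreeGroup.ext_hom
      intro i
      show D.φ (D.b (FreeGroup.lift s (FreeGroup.of i))) =
        (D.φ x)⁻¹ * D.φ (D.b (FreeGroup.of i)) * ((D.φ x)⁻¹)⁻¹
      rw [FreeGroup.lift_apply_of, hs, inv_inv]
    have h3 := DFunLike.congr_fun h2 w
    have h4 : D.φ (D.b (σ w)) = (D.φ x)⁻¹ * D.φ (D.b w) * ((D.φ x)⁻¹)⁻¹ := h3
    rw [h4, inv_inv]
  have hσζ : ∀ w, ht D.ζ (σ w) = ht D.ζ w := by
    intro w
    rw [D.hζ, hσ, ht_mul, ht_mul, ht_inv, D.hζ]; ring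
  obtain ⟨c1, hc0, hc1⟩ := let_bound (fun (y : FreeGroup β) d => Pa D.ζ d (σ y))
    (fun y d d' h => Pa.mono h) (fun y _ => Pa.exists _)
  obtain ⟨c2, hc20, hc2⟩ := D.slide x σ (fun w => by rw [hσ]; group)
  refine ⟨max c1 c2, hc0.trans (le_max_left _ _), σ, hσ, fun d w hw => ⟨?_, ?_⟩⟩
  · refine (Pa.map hσζ (fun i => ?_) hc0 hw).mono (by
      have := le_max_left c1 c2
      linarith)
    refine (hc1 _ ⟨i, Or.inl rfl⟩).mono ?_
    have := le_max_left 0 (-ht D.ζ (FreeGroup.of i))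
    linarith
  · refine E_mem ?_ (hc2 d w hw)
    have := le_max_right c1 c2
    linarith

/-- uniform version for letters -/
theorem exists_sig_unif [Finite α] : ∃ c, 0 ≤ c ∧ ∀ x : FreeGroup α, Let x →
    ∃ σ : FreeGroup β →* FreeGroup β,
    (∀ w, D.φ (D.b (σ w)) = (D.φ x)⁻¹ * D.φ (D.b w) * D.φ x) ∧
    (∀ d w, Pa D.ζ d w → Pa D.ζ (d + c) (σ w) ∧
      D.b w * x * (D.b (σ w))⁻¹ * x⁻¹ ∈ D.EE (d + c)) := by
  refine let_bound (fun (x : FreeGroup α) c => ∃ σ : FreeGroup β →* FreeGroup β,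
    (∀ w, D.φ (D.b (σ w)) = (D.φ x)⁻¹ * D.φ (D.b w) * D.φ x) ∧
    (∀ d w, Pa D.ζ d w → Pa D.ζ (d + c) (σ w) ∧
      D.b w * x * (D.b (σ w))⁻¹ * x⁻¹ ∈ D.EE (d + c))) ?_ ?_
  · rintro x c c' h ⟨σ, h1, h2⟩
    exact ⟨σ, h1, fun d w hw => ⟨(h2 d w hw).1.mono (by linarith),
      E_mem (by linarith) (h2 d w hw).2⟩⟩
  · intro x _
    obtain ⟨c, _, h⟩ := D.exists_sig x
    exact ⟨c, h⟩

omit [Finite β] in
/-- the push -/
theorem exists_tau : ∃ τ : FreeGroup β →* FreeGroup β,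
    (∀ w, D.φ (D.b (τ w)) = (D.φ (D.b D.t))⁻¹ * D.φ (D.b w) * D.φ (D.b D.t)) ∧
    (∀ d w, Pa D.ζ d w → Pa D.ζ (d + (D.lam - 1)) (τ w)) := by
  have hl := D.lam1
  have hd0 := D.dK0
  have h1 : ∀ i : β, ∃ w, D.φ (D.b w) = (D.φ (D.b D.t))⁻¹ * D.φ (D.b (FreeGroup.of i)) *
      D.φ (D.b D.t) ∧ Pa D.ζ (D.lam - 1 + max 0 (-ht D.ζ (FreeGroup.of i))) w := by
    intro i
    have hmem : (D.φ (D.b D.t))⁻¹ * D.φ (D.b (FreeGroup.of i)) * D.φ (D.b D.t) ∈ D.K := by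
      have := D.hK.conj_mem _ (D.hb (FreeGroup.of i)) (D.φ (D.b D.t))⁻¹
      rwa [inv_inv] at this
    have hht : ht D.χ ((D.φ (D.b D.t))⁻¹ * D.φ (D.b (FreeGroup.of i)) * D.φ (D.b D.t)) =
        ht D.ζ (FreeGroup.of i) := by
      rw [ht_mul, ht_mul, ht_inv, D.hζ]; ring
    rcases le_total 0 (ht D.ζ (FreeGroup.of i)) with h | h
    · obtain ⟨w, hw, hwe⟩ := D.hdK _ hmem (by rw [hht]; exact h)
      refine ⟨w, hwe, Pa.mono ?_ hw⟩
      have := le_max_left 0 (-ht D.ζ (FreeGroup.of i))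
      linarith
    · obtain ⟨w, hw, hwe⟩ := D.hdK _ (D.K.inv_mem hmem) (by rw [ht_inv, hht]; linarith)
      refine ⟨w⁻¹, by rw [map_inv, map_inv, hwe, inv_inv], ?_⟩
      have hw' : Pa D.ζ D.dK w := hw
      refine hw'.inv' ?_
      rw [D.hζ w, hwe, ht_inv, hht]
      have := le_max_right 0 (-ht D.ζ (FreeGroup.of i))
      linarith
  choose s hs hs2 using h1
  let τ : FreeGroup β →* FreeGroup β := FreeGroup.lift s
  have hτ : ∀ w, D.φ (D.b (τ w)) = (D.φ (D.b D.t))⁻¹ * D.φ (D.b w) * D.φ (D.b D.t) := by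
    intro w
    have h2 : (D.φ.comp (D.b.comp τ)) =
        (MulAut.conj (D.φ (D.b D.t))⁻¹).toMonoidHom.comp (D.φ.comp D.b) := by
      apply FreeGroup.ext_hom
      intro i
      show D.φ (D.b (FreeGroup.lift s (FreeGroup.of i))) =
        (D.φ (D.b D.t))⁻¹ * D.φ (D.b (FreeGroup.of i)) * ((D.φ (D.b D.t))⁻¹)⁻¹
      rw [FreeGroup.lift_apply_of, hs, inv_inv]
    have h3 := DFunLike.congr_fun h2 w
    have h4 : D.φ (D.b (τ w)) = (D.φ (D.b D.t))⁻¹ * D.φ (D.b w) * ((D.φ (D.b D.t))⁻¹)⁻¹ := h3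
    rw [h4, inv_inv]
  have hτζ : ∀ w, ht D.ζ (τ w) = ht D.ζ w := by
    intro w
    rw [D.hζ, hτ, ht_mul, ht_mul, ht_inv, D.hζ]; ring
  refine ⟨τ, hτ, fun d w hw => Pa.map hτζ (fun i => ?_) (by linarith) hw⟩
  show Pa D.ζ _ (FreeGroup.lift s (FreeGroup.of i))
  rw [FreeGroup.lift_apply_of]
  exact hs2 i

/-- **Pushing up.** -/
theorem push : ∃ c, 0 ≤ c ∧ ∀ m : ℕ, ∀ d w, Pa D.ζ d w → ∃ w', Pa D.ζ (d + m * (D.lam - 1)) w' ∧
    D.φ (D.b w') = (D.φ (D.b (D.t ^ m)))⁻¹ * D.φ (D.b w) * D.φ (D.b (D.t ^ m)) ∧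
    D.b w * D.b (D.t ^ m) * (D.b w')⁻¹ * (D.b (D.t ^ m))⁻¹ ∈ D.EE (d + c) := by
  obtain ⟨C, hC0, hC⟩ := D.exists_C
  obtain ⟨τ, hτ1, hτ2⟩ := D.exists_tau
  obtain ⟨c1, hc10, hc1⟩ := D.slide (D.b D.t) τ (fun w => by rw [hτ1]; group)
  obtain ⟨Ct, hCt⟩ := Pa.exists (η := D.ζ) D.t
  have hl := D.lam1
  have hd0 := D.dK0
  have hCt0 := hCt.nonneg
  refine ⟨c1 + C + Ct, by linarith, fun m => ?_⟩
  induction m with
  | zero =>
    intro d w hw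
    refine ⟨w, by simpa using hw, by simp, ?_⟩
    have : D.b w * D.b (D.t ^ 0) * (D.b w)⁻¹ * (D.b (D.t ^ 0))⁻¹ = 1 := by
      rw [pow_zero, map_one]; group
    rw [this]; exact one_mem _
  | succ m ih =>
    intro d w hw
    obtain ⟨w', h1, h2, h3⟩ := ih d w hw
    refine ⟨τ w', (hτ2 _ _ h1).mono (by push_cast; linarith), ?_, ?_⟩
    · rw [hτ1, h2, pow_succ, map_mul, map_mul]; group
    · have e : D.b w * D.b (D.t ^ (m + 1)) * (D.b (τ w'))⁻¹ * (D.b (D.t ^ (m + 1)))⁻¹ =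
          (D.b w * D.b (D.t ^ m) * (D.b w')⁻¹ * (D.b (D.t ^ m))⁻¹) *
          (D.b (D.t ^ m) * (D.b w' * D.b D.t * (D.b (τ w'))⁻¹ * (D.b D.t)⁻¹) *
            (D.b (D.t ^ m))⁻¹) := by
        rw [pow_succ, map_mul]; group
      rw [e]
      refine mul_mem h3 ?_
      have hlam : ht D.ζ D.t = D.lam := rfl
      refine E_conj' ((hC Ct _ (hCt.pow (by rw [hlam]; linarith) m)).mono ?_) (hc1 _ _ h1) ?_
      · have := hw.nonneg
        linarith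
      · rw [D.hηb, ht_pow, hlam]
        have h5 : (m : ℝ) * (D.lam - 1) ≤ m * D.lam := by
          have : (0 : ℝ) ≤ m := Nat.cast_nonneg m
          nlinarith
        linarith

end KDat

end Pool.Agent.TH18.HS
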